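import Mathlib

set_option autoImplicit false

/-! # Extension of a partial bilinear form

`κ` is given on the pairs `(b,x)` with `β(b,x) = 0` for a symmetric bilinear form `β` over `F_2`. -/

namespace Pool.Agent.Helper94.ETC

theorem z01 (x : ZMod 2) : x = 0 ∨ x = 1 := by
  revert x; decide

theorem zadd (x : ZMod 2) : x + x = 0 := by
  revert x; decide

theorem zeq {x y : ZMod 2} (h : x + y = 0) : x = y := by
  revert x y; decide

theorem zne {x : ZMod 2} (h : x ≠ 0) : x = 1 := (z01 x).resolve_left h

section ext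

variable {G : Type} [CommGroup G] (h2 : ∀ a : G, a * a = 1) (β κ : G → G → ZMod 2)
  (βs : ∀ a b, β a b = β b a) (βm : ∀ a b c, β a (b * c) = β a b + β a c)
  (κs : ∀ a b, β a b = 0 → κ a b = κ b a)
  (κm : ∀ a b c, β a b = 0 → β a c = 0 → κ a (b * c) = κ a b + κ a c)
  (tri : ∀ b c d, β b c = 1 → β b d = 1 → β c d = 1 →
    κ b (c * d) + κ c (b * d) + κ d (b * c) = 0)
include h2 βs βm κs κm tri

/-- a form `κ`, defined where `β = 0`, extends to a bilinear form -/
theorem extend : ∃ χ : G → G → ZMod 2, (∀ a b c, χ (a * b) c = χ a c + χ b c) ∧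
    (∀ a b c, χ a (b * c) = χ a b + χ a c) ∧ ∀ a b, β a b = 0 → χ a b = κ a b := by
  classical
  have βl : ∀ a b c, β (a * b) c = β a c + β b c := by
    intro a b c
    rw [βs, βm, βs c a, βs c b]
  have κl : ∀ a b c, β a c = 0 → β b c = 0 → κ (a * b) c = κ a c + κ b c := by
    intro a b c ha hb
    have hab : β (a * b) c = 0 := by rw [βl, ha, hb, add_zero]
    rw [κs _ _ hab, κm _ _ _ (by rw [βs]; exact ha) (by rw [βs]; exact hb), ← κs a c ha,
      ← κs b c hb]
  by_cases h0 : ∀ a b, β a b = 0
  · exact ⟨κ, fun a b c => κl a b c (h0 _ _) (h0 _ _), fun a b c => κm a b c (h0 _ _) (h0 _ _),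
      fun _ _ _ => rfl⟩
  push Not at h0
  obtain ⟨b0, x0, h0⟩ := h0
  have hx0 : β b0 x0 = 1 := zne h0
  have c2 : ∀ a b c : G, a * c * (b * c) = a * b := by
    intro a b c
    rw [mul_mul_mul_comm, h2, mul_one]
  -- the row of `b0`
  let L : G → ZMod 2 := fun x => if β b0 x = 0 then κ b0 x else κ b0 (x * x0)
  have L0 : ∀ x, β b0 x = 0 → L x = κ b0 x := fun x hx => if_pos hx
  have L1 : ∀ x, β b0 x = 1 → L x = κ b0 (x * x0) := fun x hx =>
    if_neg (by rw [hx]; decide)
  have LL : ∀ c d, β b0 c = 1 → β b0 d = 1 → L c + L d = κ b0 (c * d) := by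
    intro c d hc hd
    rw [L1 c hc, L1 d hd, ← κm _ _ _ (by rw [βm, hc, hx0, zadd]) (by rw [βm, hd, hx0, zadd]), c2]
  -- the rows of the elements outside the hyperplane
  let M : G → G → ZMod 2 := fun c x => if β c x = 0 then κ c x else κ c (x * b0) + L c
  have M0 : ∀ c x, β c x = 0 → M c x = κ c x := fun c x hx => if_pos hx
  have M1 : ∀ c x, β c x = 1 → M c x = κ c (x * b0) + L c := fun c x hx =>
    if_neg (by rw [hx]; decide)
  have Mm : ∀ c, β b0 c = 1 → ∀ x y, M c (x * y) = M c x + M c y := by
    intro c hc x y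
    have hcb : β c b0 = 1 := by rw [βs]; exact hc
    rcases z01 (β c x) with hx | hx <;> rcases z01 (β c y) with hy | hy
    · rw [M0 _ _ (by rw [βm, hx, hy, add_zero]), M0 _ _ hx, M0 _ _ hy, κm _ _ _ hx hy]
    · rw [M1 _ _ (by rw [βm, hx, hy, zero_add]), M0 _ _ hx, M1 _ _ hy, mul_assoc,
        κm _ _ _ hx (by rw [βm, hy, hcb, zadd])]
      ring
    · rw [M1 _ _ (by rw [βm, hx, hy, add_zero]), M1 _ _ hx, M0 _ _ hy, mul_right_comm,
        κm _ _ _ (by rw [βm, hx, hcb, zadd]) hy]
      ring
    · rw [M0 _ _ (by rw [βm, hx, hy, zadd]), M1 _ _ hx, M1 _ _ hy, ← c2 x y b0,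
        κm _ _ _ (by rw [βm, hx, hcb, zadd]) (by rw [βm, hy, hcb, zadd])]
      have := zadd (L c)
      linear_combination -this
  have Ms : ∀ c d, β b0 c = 1 → β b0 d = 1 → M c d = M d c := by
    intro c d hc hd
    rcases z01 (β c d) with h | h
    · rw [M0 _ _ h, M0 _ _ (by rw [βs]; exact h), κs _ _ h]
    · rw [M1 _ _ h, M1 _ _ (by rw [βs]; exact h)]
      have h1 := tri b0 c d hc hd h
      rw [← LL c d hc hd, mul_comm b0 d, mul_comm b0 c] at h1
      have h3 := zadd (L c)
      apply zeq
      linear_combination h1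
  have MK : ∀ c d x, β b0 c = 1 → β b0 d = 1 → β (c * d) x = 0 → M c x + M d x = κ (c * d) x := by
    intro c d x hc hd hx
    rw [βl] at hx
    rcases z01 (β c x) with h | h
    · have h' : β d x = 0 := by rw [h, zero_add] at hx; exact hx
      rw [M0 _ _ h, M0 _ _ h', κl _ _ _ h h']
    · have h' : β d x = 1 := by
        rw [h] at hx
        exact (zeq hx).symm
      rcases z01 (β b0 x) with hb | hb
      · have e1 : β c (x * b0) = 0 := by rw [βm, h, βs c b0, hc, zadd]
        have e2 : β d (x * b0) = 0 := by rw [βm, h', βs d b0, hd, zadd]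
        have e3 : β (c * d) (x * b0) = 0 := by rw [βl, e1, e2, add_zero]
        have e4 : β (c * d) b0 = 0 := by rw [βl, βs c, βs d, hc, hd, zadd]
        have e5 : β b0 (c * d) = 0 := by rw [βs]; exact e4
        have e6 := κl _ _ _ e1 e2
        have e7 := κm _ _ _ e3 e4
        rw [mul_assoc, h2, mul_one] at e7
        have e8 := LL c d hc hd
        rw [κs _ _ e5] at e8
        rw [M1 _ _ h, M1 _ _ h', e7, e6, ← e8]
        ring
      · rw [Ms c x hc hb, Ms d x hd hb, ← Mm x hb, M0 _ _ (by rw [βm, βs x c, βs x d, h, h', zadd]),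
          κs]
        rw [βm, βs x c, βs x d, h, h', zadd]
  have MF : ∀ c d e x, β b0 c = 1 → β b0 d = 1 → β b0 e = 1 →
      M c x + M d x + M e x + M (c * d * e) x = 0 := by
    have key : ∀ c d e x, β b0 c = 1 → β b0 d = 1 → β b0 e = 1 → β (c * d) x = 0 →
        M c x + M d x + M e x + M (c * d * e) x = 0 := by
      intro c d e x hc hd he h
      have h1 : β b0 (c * d * e) = 1 := by rw [βm, βm, hc, hd, he]; decide
      have e1 : e * (c * d * e) = c * d := by
        rw [mul_comm (c * d) e, ← mul_assoc, h2, one_mul]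
      have h3 := MK e (c * d * e) x he h1 (by rw [e1]; exact h)
      rw [e1, ← MK c d x hc hd h] at h3
      have h4 := zadd (M c x + M d x)
      linear_combination h3 + h4
    intro c d e x hc hd he
    rcases z01 (β (c * d) x) with h | h
    · exact key c d e x hc hd he h
    rcases z01 (β (c * e) x) with h' | h'
    · have := key c e d x hc he hd h'
      rw [mul_right_comm] at this
      linear_combination this
    · have h3 : β (d * e) x = 0 := by
        rw [βl] at h h' ⊢
        have h5 := zadd (β c x)
        have h6 : (1 : ZMod 2) + 1 = 0 := by decide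
        linear_combination h + h' - h5 + h6
      have := key d e c x hd he hc h3
      rw [mul_comm (d * e) c, ← mul_assoc] at this
      linear_combination this
  refine ⟨fun c x => if β b0 c = 1 then M c x else M x0 x + M (c * x0) x, ?_, ?_, ?_⟩
  · intro a b x
    show (if β b0 (a * b) = 1 then M (a * b) x else M x0 x + M (a * b * x0) x) =
      (if β b0 a = 1 then M a x else M x0 x + M (a * x0) x) +
      (if β b0 b = 1 then M b x else M x0 x + M (b * x0) x)
    have t01 : ((0 : ZMod 2) = 1) ↔ False := by decide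
    rcases z01 (β b0 a) with ha | ha <;> rcases z01 (β b0 b) with hb | hb
    · rw [if_neg (by rw [βm, ha, hb]; decide), if_neg (by rw [ha]; decide),
        if_neg (by rw [hb]; decide)]
      have h1 := MF x0 (a * x0) (b * x0) x hx0 (by rw [βm, ha, hx0, zero_add])
        (by rw [βm, hb, hx0, zero_add])
      have e1 : x0 * (a * x0) * (b * x0) = a * b * x0 := by
        calc x0 * (a * x0) * (b * x0) = (x0 * x0) * (a * b * x0) := by
              simp only [mul_assoc, mul_left_comm, mul_comm]
          _ = a * b * x0 := by rw [h2, one_mul]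
      rw [e1] at h1
      have h3 := zadd (M x0 x)
      have h4 := zadd (M (a * x0) x + M (b * x0) x)
      apply zeq
      linear_combination h1 + h3
    · rw [if_pos (by rw [βm, ha, hb]; decide), if_neg (by rw [ha]; decide), if_pos hb]
      have h1 := MF x0 (a * x0) b x hx0 (by rw [βm, ha, hx0, zero_add]) hb
      have e1 : x0 * (a * x0) * b = a * b := by
        calc x0 * (a * x0) * b = (x0 * x0) * (a * b) := by
              simp only [mul_assoc, mul_left_comm, mul_comm]
          _ = a * b := by rw [h2, one_mul]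
      rw [e1] at h1
      apply zeq
      linear_combination h1
    · rw [if_pos (by rw [βm, ha, hb]; decide), if_pos ha, if_neg (by rw [hb]; decide)]
      have h1 := MF x0 (b * x0) a x hx0 (by rw [βm, hb, hx0, zero_add]) ha
      have e1 : x0 * (b * x0) * a = a * b := by
        calc x0 * (b * x0) * a = (x0 * x0) * (a * b) := by
              simp only [mul_assoc, mul_left_comm, mul_comm]
          _ = a * b := by rw [h2, one_mul]
      rw [e1] at h1
      apply zeq
      linear_combination h1
    · rw [if_neg (by rw [βm, ha, hb]; decide), if_pos ha, if_pos hb]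
      have h1 := MF x0 a b x hx0 ha hb
      have e1 : x0 * a * b = a * b * x0 := by
        rw [mul_assoc, mul_comm]
      rw [e1] at h1
      apply zeq
      linear_combination h1
  · intro a b c
    show (if β b0 a = 1 then M a (b * c) else M x0 (b * c) + M (a * x0) (b * c)) =
      (if β b0 a = 1 then M a b else M x0 b + M (a * x0) b) +
      (if β b0 a = 1 then M a c else M x0 c + M (a * x0) c)
    rcases z01 (β b0 a) with ha | ha
    · have hn : ¬ (β b0 a = 1) := by rw [ha]; decide
      rw [if_neg hn, if_neg hn, if_neg hn, Mm x0 hx0, Mm (a * x0) (by rw [βm, ha, hx0, zero_add])]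
      ring
    · rw [if_pos ha, if_pos ha, if_pos ha, Mm a ha]
  · intro a b hab
    show (if β b0 a = 1 then M a b else M x0 b + M (a * x0) b) = κ a b
    rcases z01 (β b0 a) with ha | ha
    · have e1 : x0 * (a * x0) = a := by
        rw [mul_left_comm, h2, mul_one]
      rw [if_neg (by rw [ha]; decide), MK x0 (a * x0) b hx0 (by rw [βm, ha, hx0, zero_add])
        (by rw [e1]; exact hab), e1]
    · rw [if_pos ha, M0 _ _ hab]

end ext

end Pool.Agent.Helper94.ETC
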