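import Pool.Agent.Helper94.ETC.Basic
import Pool.Agent.Helper94.ETC.Ext
import Pool.Graph.R_pool_sql_team_seeded_620a6dc7.HP953.EH.Pair

set_option autoImplicit false

/-! # Criteria for the additivity of the quaternions -/

namespace Pool.Agent.Helper94.ETC

open Pool.Agent.H315R3.ETC
open Pool.Agent.HP953.EH (AddQuat Sym sym_eq)

/-- a homomorphism to `Z/2` which kills a subgroup and is not zero at an element outside -/
theorem exists_hom {G : Type} [CommGroup G] (h2 : ∀ a : G, a * a = 1) (H : Subgroup G) {g : G}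
    (hg : g ∉ H) : ∃ f : G → ZMod 2, (∀ x y, f (x * y) = f x + f y) ∧ (∀ h ∈ H, f h = 0) ∧
      f g = 1 := by
  letI : Module (ZMod 2) (Additive G) := AddCommGroup.zmodModule (n := 2) (fun x => by
    rw [two_nsmul]
    exact congrArg Additive.ofMul (h2 x.toMul))
  let K : Submodule (ZMod 2) (Additive G) := AddSubgroup.toZModSubmodule 2 (Subgroup.toAddSubgroup H)
  have hK : Additive.ofMul g ∉ K := hg
  obtain ⟨f, hf1, hf2⟩ := Submodule.exists_le_ker_of_notMem hK
  refine ⟨fun x => f (Additive.ofMul x), fun x y => ?_, fun h hh => hf2 hh, ?_⟩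
  · show f (Additive.ofMul (x * y)) = _
    rw [ofMul_mul, map_add]
  · exact zne hf1

/-- `χ` is a symbol on the subgroup `W` -/
def SymOn (S : QData) (W : Subgroup S.G) (χ : S.G → S.G → ZMod 2) : Prop :=
  (∀ a ∈ W, ∀ b ∈ W, ∀ c, χ (a * b) c = χ a c + χ b c) ∧
  (∀ a ∈ W, ∀ b c, χ a (b * c) = χ a b + χ a c) ∧
  (∀ a ∈ W, ∀ b, S.q a b = S.zero → χ a b = 0)

/-- `W` has at most four elements -/
def Small {G : Type} [CommGroup G] (W : Subgroup G) : Prop :=
  ∀ u ∈ W, ∀ v ∈ W, ∀ w ∈ W, u = 1 ∨ v = 1 ∨ w = 1 ∨ u = v ∨ u = w ∨ v = w ∨ w = u * v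

section main

variable {S : QData} (hS : IsQuat S)
include hS

theorem SymOn.wd {W : Subgroup S.G} {χ : S.G → S.G → ZMod 2} (hχ : SymOn S W χ) {a b c d : S.G}
    (ha : a ∈ W) (hc : c ∈ W) (h : S.q a b = S.q c d) : χ a b = χ c d := by
  obtain ⟨x, h1, h2, h3⟩ := link hS h
  have e1 : χ a b + χ a x = 0 := by
    rw [← hχ.2.1 a ha]; exact hχ.2.2 a ha _ (of_eq_r hS h1)
  have e2 : χ c d + χ c x = 0 := by
    rw [← hχ.2.1 c hc]; exact hχ.2.2 c hc _ (of_eq_r hS h2)
  have e3 : χ a x + χ c x = 0 := by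
    rw [← hχ.1 a ha c hc]; exact hχ.2.2 _ (W.mul_mem ha hc) _ h3
  rw [zeq e1, zeq e3, ← zeq e2]

theorem SymOn.one {W : Subgroup S.G} {χ : S.G → S.G → ZMod 2} (hχ : SymOn S W χ) (b : S.G) :
    χ 1 b = 0 := hχ.2.2 1 W.one_mem b (one_q hS b)

/-- a symbol on a subgroup with at most four elements respects the sums in `Q_z` -/
theorem SymOn.circuit {W : Subgroup S.G} (hW : Small W) {χ : S.G → S.G → ZMod 2}
    (hχ : SymOn S W χ) {u v w b₁ b₂ b₃ z y₁ y₂ y₃ : S.G} (hu : u ∈ W) (hv : v ∈ W) (hw : w ∈ W)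
    (h₁ : S.q u b₁ = S.q z y₁) (h₂ : S.q v b₂ = S.q z y₂) (h₃ : S.q w b₃ = S.q z y₃)
    (h : S.q z (y₁ * y₂ * y₃) = S.zero) : χ u b₁ + χ v b₂ + χ w b₃ = 0 := by
  -- two equal slots
  have two : ∀ {u w b₁ b₂ b₃ y₁ y₂ y₃ : S.G}, u ∈ W → w ∈ W →
      S.q u b₁ = S.q z y₁ → S.q u b₂ = S.q z y₂ → S.q w b₃ = S.q z y₃ →
      S.q z (y₁ * y₂ * y₃) = S.zero → χ u b₁ + χ u b₂ + χ w b₃ = 0 := by
    intro u w b₁ b₂ b₃ y₁ y₂ y₃ hu hw h₁ h₂ h₃ h
    have e1 := sum_indep hS h₁ h₂
    rw [eq_r hS h, ← h₃] at e1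
    have e2 := hχ.wd hS hu hw e1
    rw [hχ.2.1 u hu] at e2
    rw [e2, zadd]
  -- a trivial slot
  have one : ∀ {u v w b₁ b₂ b₃ y₁ y₂ y₃ : S.G}, u = 1 → v ∈ W → w ∈ W →
      S.q u b₁ = S.q z y₁ → S.q v b₂ = S.q z y₂ → S.q w b₃ = S.q z y₃ →
      S.q z (y₁ * y₂ * y₃) = S.zero → χ u b₁ + χ v b₂ + χ w b₃ = 0 := by
    intro u v w b₁ b₂ b₃ y₁ y₂ y₃ hu hv hw h₁ h₂ h₃ h
    subst hu
    rw [hχ.one hS, zero_add]
    have e0 : S.q z y₁ = S.zero := by rw [← h₁]; exact one_q hS _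
    have e1 : S.q z (y₂ * y₃) = S.zero := by
      have := mul_right hS e0 h
      rwa [mul_assoc y₁, sq' hS] at this
    have e2 : S.q v b₂ = S.q w b₃ := by rw [h₂, h₃]; exact eq_r hS e1
    rw [hχ.wd hS hv hw e2, zadd]
  have r1 : y₂ * y₁ * y₃ = y₁ * y₂ * y₃ := by rw [mul_comm y₂ y₁]
  have r2 : y₃ * y₁ * y₂ = y₁ * y₂ * y₃ := by rw [mul_assoc, mul_comm]
  have r3 : y₁ * y₃ * y₂ = y₁ * y₂ * y₃ := mul_right_comm _ _ _
  have r4 : y₂ * y₃ * y₁ = y₁ * y₂ * y₃ := by rw [mul_comm, mul_assoc]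
  rcases hW u hu v hv w hw with e | e | e | e | e | e | e
  · exact one e hv hw h₁ h₂ h₃ h
  · have := one e hu hw h₂ h₁ h₃ (by rw [r1]; exact h)
    linear_combination this
  · have := one e hu hv h₃ h₁ h₂ (by rw [r2]; exact h)
    linear_combination this
  · subst e
    exact two hu hw h₁ h₂ h₃ h
  · subst e
    have := two hu hv h₁ h₃ h₂ (by rw [r3]; exact h)
    linear_combination this
  · subst e
    have := two hv hu h₂ h₃ h₁ (by rw [r4]; exact h)
    linear_combination this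
  · subst e
    obtain ⟨g, g1, g2, g3⟩ := triple hS h₁ h₂ h₃ h
    rw [hχ.wd hS hu hu g1, hχ.wd hS hv hv g2, hχ.wd hS hw hw g3, hχ.1 u hu v hv]
    have := zadd (χ u g + χ v g)
    exact this

/-- Let `β` be a symmetric bilinear form such that `β(b,x) = 0` if and only if `q(b,x)` has a slot in
the subgroup `W` with at most four elements. Then symbols on `W` extend. -/
theorem ext_of_beta {W : Subgroup S.G} (hW : Small W) {β : S.G → S.G → ZMod 2}
    (βs : ∀ a b, β a b = β b a) (βm : ∀ a b c, β a (b * c) = β a b + β a c)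
    (hβ : ∀ b x, β b x = 0 ↔ ∃ w ∈ W, ∃ y, S.q b x = S.q w y)
    {χ₀ : S.G → S.G → ZMod 2} (hχ : SymOn S W χ₀) :
    ∃ χ, Sym S χ ∧ ∀ w ∈ W, ∀ y, χ w y = χ₀ w y := by
  classical
  let κ : S.G → S.G → ZMod 2 := fun b x =>
    if h : ∃ w ∈ W, ∃ y, S.q b x = S.q w y then χ₀ h.choose h.choose_spec.2.choose else 0
  have κe : ∀ b x w y, w ∈ W → S.q b x = S.q w y → κ b x = χ₀ w y := by
    intro b x w y hw h
    have hex : ∃ w ∈ W, ∃ y, S.q b x = S.q w y := ⟨w, hw, y, h⟩
    have e : κ b x = χ₀ hex.choose hex.choose_spec.2.choose := dif_pos hex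
    rw [e]
    exact hχ.wd hS hex.choose_spec.1 hw (hex.choose_spec.2.choose_spec.symm.trans h)
  -- the sums in `Q_z`
  have κc : ∀ z y₁ y₂ y₃, β z y₁ = 0 → β z y₂ = 0 → β z y₃ = 0 → S.q z (y₁ * y₂ * y₃) = S.zero →
      κ z y₁ + κ z y₂ + κ z y₃ = 0 := by
    intro z y₁ y₂ y₃ h₁ h₂ h₃ h
    obtain ⟨u, hu, b₁, e₁⟩ := (hβ _ _).1 h₁
    obtain ⟨v, hv, b₂, e₂⟩ := (hβ _ _).1 h₂
    obtain ⟨w, hw, b₃, e₃⟩ := (hβ _ _).1 h₃
    rw [κe _ _ _ _ hu e₁, κe _ _ _ _ hv e₂, κe _ _ _ _ hw e₃]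
    exact hχ.circuit hS hW hu hv hw e₁.symm e₂.symm e₃.symm h
  have κq : ∀ a b c d, β a b = 0 → S.q a b = S.q c d → κ a b = κ c d := by
    intro a b c d h e
    obtain ⟨u, hu, b₁, e₁⟩ := (hβ _ _).1 h
    rw [κe _ _ _ _ hu e₁, κe _ _ _ _ hu (e.symm.trans e₁)]
  have κs : ∀ a b, β a b = 0 → κ a b = κ b a := fun a b h => κq _ _ _ _ h (hS.qs2 a b)
  have κm : ∀ a b c, β a b = 0 → β a c = 0 → κ a (b * c) = κ a b + κ a c := by
    intro a b c hb hc
    have h1 := κc a b c (b * c) hb hc (by rw [βm, hb, hc, add_zero]) (by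
      rw [hS.exp2]; exact q_one hS a)
    exact (zeq h1).symm
  have βq : ∀ a b c d, S.q a b = S.q c d → β a b = 0 → β c d = 0 := by
    intro a b c d h hab
    obtain ⟨w, hw, y, e⟩ := (hβ _ _).1 hab
    exact (hβ _ _).2 ⟨w, hw, y, h.symm.trans e⟩
  have tri : ∀ b c d, β b c = 1 → β b d = 1 → β c d = 1 →
      κ b (c * d) + κ c (b * d) + κ d (b * c) = 0 := by
    intro b c d hbc hbd hcd
    -- all three have the slot `-bcd`
    have key : ∀ p r : S.G, S.q p r = S.q (S.neg * (p * r)) r := by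
      intro p r
      apply eq_l hS
      have : p * (S.neg * (p * r)) = S.neg * r := by
        rw [mul_left_comm, sq' hS]
      rw [this, hS.qs2]
      exact hS.qs1 r
    set z := S.neg * (b * (c * d)) with hz
    have k1 : S.q b (c * d) = S.q z (c * d) := key b (c * d)
    have k2 : S.q c (b * d) = S.q z (b * d) := by
      have := key c (b * d)
      rwa [mul_left_comm c b d] at this
    have k3 : S.q d (b * c) = S.q z (b * c) := by
      have := key d (b * c)
      rwa [mul_comm d, mul_assoc] at this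
    have o1 : β b (c * d) = 0 := by rw [βm, hbc, hbd, zadd]
    have o2 : β c (b * d) = 0 := by rw [βm, βs c b, hbc, hcd, zadd]
    have o3 : β d (b * c) = 0 := by rw [βm, βs d b, βs d c, hbd, hcd, zadd]
    rw [κq _ _ _ _ o1 k1, κq _ _ _ _ o2 k2, κq _ _ _ _ o3 k3]
    apply κc
    · exact βq _ _ _ _ k1 o1
    · exact βq _ _ _ _ k2 o2
    · exact βq _ _ _ _ k3 o3
    · have : c * d * (b * d) * (b * c) = 1 := by
        calc c * d * (b * d) * (b * c) = (b * b) * (c * c) * (d * d) := by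
              simp only [mul_left_comm, mul_comm]
          _ = 1 := by rw [hS.exp2 b, hS.exp2 c, hS.exp2 d, mul_one, mul_one]
      rw [this]; exact q_one hS z
  obtain ⟨χ, c1, c2, c3⟩ := extend hS.exp2 β κ βs βm κs κm tri
  refine ⟨χ, ⟨c1, c2, fun a b hab => ?_⟩, fun w hw y => ?_⟩
  · have e : S.q a b = S.q 1 1 := by rw [hab, q_one hS]
    rw [c3 a b ((hβ _ _).2 ⟨1, W.one_mem, 1, e⟩), κe _ _ _ _ W.one_mem e, hχ.one hS]
  · rw [c3 w y ((hβ _ _).2 ⟨w, hw, y, rfl⟩), κe _ _ _ _ hw rfl]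

/-- if the symbols separate the quaternions, these are additive -/
theorem add_of_sep (h : ∀ a b c d : S.G, (∀ χ, Sym S χ → χ a b = χ c d) → S.q a b = S.q c d) :
    AddQuat S := by
  refine ⟨{χ : S.G → S.G → ZMod 2 // Sym S χ} → ZMod 2, inferInstance,
    fun a b χ => χ.1 a b, ?_, ?_, ?_⟩
  · intro b
    funext χ
    exact zadd _
  · intro a b c
    funext χ
    exact χ.2.2.1 a b c
  · intro a b c d
    constructor
    · intro hab
      exact h a b c d fun χ hχ => congrFun hab ⟨χ, hχ⟩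
    · intro hq
      funext χ
      exact sym_eq hS χ.2 hq

/-- **First criterion.** There is an element `a₀` such that the quaternions `q(b,x)` with slot `a₀` are
the zeros of a symmetric bilinear form `β`. -/
theorem add_of_slot (a₀ : S.G) {β : S.G → S.G → ZMod 2}
    (βs : ∀ a b, β a b = β b a) (βm : ∀ a b c, β a (b * c) = β a b + β a c)
    (hβ : ∀ b x, β b x = 0 ↔ ∃ y, S.q b x = S.q a₀ y) : AddQuat S := by
  classical
  have βl : ∀ a b c, β (a * b) c = β a c + β b c := by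
    intro a b c
    rw [βs, βm, βs c a, βs c b]
  -- symbols with given row at `a₀`
  have hext : ∀ f : S.G → ZMod 2, (∀ x y, f (x * y) = f x + f y) →
      (∀ x, S.q a₀ x = S.zero → f x = 0) → ∃ χ, Sym S χ ∧ ∀ y, χ a₀ y = f y := by
    intro f hf hf0
    by_cases ha : a₀ = 1
    · refine ⟨fun _ _ => 0, ⟨fun _ _ _ => (zadd 0).symm, fun _ _ _ => (zadd 0).symm,
        fun _ _ _ => rfl⟩, fun y => ?_⟩
      rw [hf0 y (by rw [ha]; exact one_q hS y)]
    obtain ⟨l, l1, -, l3⟩ := exists_hom hS.exp2 (⊥ : Subgroup S.G) (g := a₀) (by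
      rw [Subgroup.mem_bot]; exact ha)
    have lone : l 1 = 0 := by
      have := l1 1 1
      rw [mul_one] at this
      simpa using this
    have hmem : ∀ w ∈ Subgroup.zpowers a₀, w = 1 ∨ w = a₀ := by
      intro w hw
      obtain ⟨n, rfl⟩ := Subgroup.mem_zpowers_iff.1 hw
      rcases Int.even_or_odd' n with ⟨k, rfl | rfl⟩
      · left
        rw [zpow_mul, zpow_two, hS.exp2, one_zpow]
      · right
        rw [zpow_add, zpow_mul, zpow_two, hS.exp2, one_zpow, one_mul, zpow_one]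
    have hsmall : Small (Subgroup.zpowers a₀) := by
      intro u hu v hv w hw
      rcases hmem u hu with rfl | rfl
      · exact Or.inl rfl
      · rcases hmem v hv with rfl | rfl
        · exact Or.inr (Or.inl rfl)
        · exact Or.inr (Or.inr (Or.inr (Or.inl rfl)))
    obtain ⟨χ, h1, h2⟩ := ext_of_beta hS (W := Subgroup.zpowers a₀) hsmall βs βm
      (fun b x => by
        rw [hβ]
        constructor
        · rintro ⟨y, hy⟩
          exact ⟨a₀, Subgroup.mem_zpowers a₀, y, hy⟩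
        · rintro ⟨w, hw, y, hy⟩
          rcases hmem w hw with rfl | rfl
          · exact ⟨1, by rw [hy, one_q hS, q_one hS]⟩
          · exact ⟨y, hy⟩)
      (χ₀ := fun w y => l w * f y) ⟨fun a _ b _ c => by
          show l (a * b) * f c = _
          rw [l1, add_mul], fun a _ b c => by
          show l a * f (b * c) = _
          rw [hf, mul_add], fun a ha b hab => by
          show l a * f b = 0
          rcases hmem a ha with rfl | rfl
          · rw [lone, zero_mul]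
          · rw [hf0 b hab, mul_zero]⟩
    refine ⟨χ, h1, fun y => ?_⟩
    rw [h2 a₀ (Subgroup.mem_zpowers a₀) y, l3, one_mul]
  -- detection in `Q_{a₀}`
  have hdet : ∀ y, (∀ χ, Sym S χ → χ a₀ y = 0) → S.q a₀ y = S.zero := by
    intro y hy
    by_contra hne
    let H : Subgroup S.G :=
      { carrier := {x | S.q a₀ x = S.zero}
        one_mem' := q_one hS _
        mul_mem' := fun h h' => mul_right hS h h'
        inv_mem' := fun {x} hx => by
          have : x⁻¹ = x := inv_eq_of_mul_eq_one_left (hS.exp2 x)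
          rwa [this] }
    obtain ⟨f, f1, f2, f3⟩ := exists_hom hS.exp2 H (g := y) hne
    obtain ⟨χ, h1, h2⟩ := hext f f1 (fun x hx => f2 x hx)
    have := hy χ h1
    rw [h2, f3] at this
    exact absurd this (by decide)
  have hβS : Sym S β := by
    refine ⟨βl, βm, fun a b hab => (hβ _ _).2 ⟨1, ?_⟩⟩
    rw [hab, q_one hS]
  apply add_of_sep hS
  intro a b c d h
  have hβe := h β hβS
  rcases z01 (β a b) with hb | hb
  · obtain ⟨y, hy⟩ := (hβ _ _).1 hb
    obtain ⟨y', hy'⟩ := (hβ _ _).1 (hβe.symm.trans hb)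
    rw [hy, hy']
    apply eq_r hS
    apply hdet
    intro χ hχ
    rw [hχ.2.1, ← sym_eq hS hχ hy, ← sym_eq hS hχ hy', h χ hχ, zadd]
  · have hd : β c d = 1 := hβe.symm.trans hb
    -- an element `w` with `β(a,w) = β(c,w) = 1`
    obtain ⟨w, hw1, hw2⟩ : ∃ w, β a w = 1 ∧ β c w = 1 := by
      rcases z01 (β c b) with h1 | h1
      · rcases z01 (β a d) with h2 | h2
        · exact ⟨b * d, by rw [βm, hb, h2, add_zero], by rw [βm, h1, hd, zero_add]⟩
        · exact ⟨d, h2, hd⟩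
      · exact ⟨b, hb, h1⟩
    obtain ⟨y₁, e₁⟩ := (hβ a (b * w)).1 (by rw [βm, hb, hw1, zadd])
    obtain ⟨y₂, e₂⟩ := (hβ c (d * w)).1 (by rw [βm, hd, hw2, zadd])
    obtain ⟨y₃, e₃⟩ := (hβ (a * c) w).1 (by rw [βl, hw1, hw2, zadd])
    have hz : S.q a₀ (y₁ * y₂ * y₃) = S.zero := by
      apply hdet
      intro χ hχ
      rw [hχ.2.1, hχ.2.1, ← sym_eq hS hχ e₁, ← sym_eq hS hχ e₂, ← sym_eq hS hχ e₃, hχ.2.1, hχ.2.1,
        hχ.1, h χ hχ]
      have t1 := zadd (χ c d)
      have t2 := zadd (χ a w)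
      have t3 := zadd (χ c w)
      linear_combination t1 + t2 + t3
    obtain ⟨g, g1, g2, g3⟩ := triple hS e₁ e₂ e₃ hz
    have k1 : S.q a (b * (w * g)) = S.zero := by rw [← mul_assoc]; exact of_eq_r hS g1
    have k2 : S.q c (d * (w * g)) = S.zero := by rw [← mul_assoc]; exact of_eq_r hS g2
    have k3 : S.q (a * c) (w * g) = S.zero := of_eq_r hS g3
    rw [eq_r hS k1, eq_r hS k2]
    exact eq_l hS k3

/-- **Second criterion.** There are `x` and `y` such that each quaternion has one of the slots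
`x`, `y`, `xy`. -/
theorem add_of_three (x y : S.G)
    (h : ∀ a b, ∃ c, S.q a b = S.q x c ∨ S.q a b = S.q y c ∨ S.q a b = S.q (x * y) c) :
    AddQuat S := by
  classical
  by_cases hx1 : x = 1
  · refine add_of_slot hS y (β := fun _ _ => 0) (fun _ _ => rfl) (fun _ _ _ => (zadd 0).symm) ?_
    intro b z
    refine ⟨fun _ => ?_, fun _ => rfl⟩
    obtain ⟨c, h1 | h1 | h1⟩ := h b z
    · exact ⟨1, by rw [h1, hx1, one_q hS, q_one hS]⟩
    · exact ⟨c, h1⟩
    · exact ⟨c, by rw [h1, hx1, one_mul]⟩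
  by_cases hy1 : y = 1
  · refine add_of_slot hS x (β := fun _ _ => 0) (fun _ _ => rfl) (fun _ _ _ => (zadd 0).symm) ?_
    intro b z
    refine ⟨fun _ => ?_, fun _ => rfl⟩
    obtain ⟨c, h1 | h1 | h1⟩ := h b z
    · exact ⟨c, h1⟩
    · exact ⟨1, by rw [h1, hy1, one_q hS, q_one hS]⟩
    · exact ⟨c, by rw [h1, hy1, mul_one]⟩
  by_cases hxy : x = y
  · refine add_of_slot hS x (β := fun _ _ => 0) (fun _ _ => rfl) (fun _ _ _ => (zadd 0).symm) ?_
    intro b z
    refine ⟨fun _ => ?_, fun _ => rfl⟩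
    obtain ⟨c, h1 | h1 | h1⟩ := h b z
    · exact ⟨c, h1⟩
    · exact ⟨c, by rw [h1, hxy]⟩
    · exact ⟨1, by rw [h1, ← hxy, hS.exp2, one_q hS, q_one hS]⟩
  -- separation for two different slots which generate the group
  have key : ∀ x y : S.G, x ≠ 1 → y ≠ 1 → x ≠ y →
      (∀ a b, ∃ c, S.q a b = S.q x c ∨ S.q a b = S.q y c ∨ S.q a b = S.q (x * y) c) →
      ∀ b d, (∀ χ, Sym S χ → χ x b = χ y d) →
        ∃ v, S.q x (b * v) = S.zero ∧ S.q y (d * v) = S.zero ∧ S.q (x * y) v = S.zero := by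
    intro x y hx1 hy1 hxy h b d hs
    by_contra hne
    let R : Subgroup (S.G × S.G) :=
      { carrier := {p | ∃ v, S.q x (p.1 * v) = S.zero ∧ S.q y (p.2 * v) = S.zero ∧
          S.q (x * y) v = S.zero}
        one_mem' := ⟨1, by show S.q x (1 * 1) = _; rw [mul_one]; exact q_one hS _,
          by show S.q y (1 * 1) = _; rw [mul_one]; exact q_one hS _, q_one hS _⟩
        mul_mem' := by
          rintro p r ⟨v, hv1, hv2, hv3⟩ ⟨w, hw1, hw2, hw3⟩
          refine ⟨v * w, ?_, ?_, mul_right hS hv3 hw3⟩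
          · show S.q x (p.1 * r.1 * (v * w)) = S.zero
            rw [mul_mul_mul_comm]
            exact mul_right hS hv1 hw1
          · show S.q y (p.2 * r.2 * (v * w)) = S.zero
            rw [mul_mul_mul_comm]
            exact mul_right hS hv2 hw2
        inv_mem' := by
          have hinv : ∀ x : S.G, x⁻¹ = x := fun x => inv_eq_of_mul_eq_one_left (hS.exp2 x)
          rintro p ⟨v, hv1, hv2, hv3⟩
          refine ⟨v, ?_, ?_, hv3⟩
          · show S.q x (p.1⁻¹ * v) = S.zero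
            rw [hinv]; exact hv1
          · show S.q y (p.2⁻¹ * v) = S.zero
            rw [hinv]; exact hv2 }
    have hbd : ((b, d) : S.G × S.G) ∉ R := fun ⟨v, hv⟩ => hne ⟨v, hv⟩
    obtain ⟨F, F1, F2, F3⟩ := exists_hom (G := S.G × S.G)
      (fun p => Prod.ext (hS.exp2 p.1) (hS.exp2 p.2)) R hbd
    -- the generators of `W`
    have hW1 : ∀ w ∈ Subgroup.closure ({x, y} : Set S.G), w = 1 ∨ w = x ∨ w = y ∨ w = x * y := by
      intro w hw
      rw [Subgroup.mem_closure_pair] at hw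
      obtain ⟨m, n, rfl⟩ := hw
      have hp : ∀ (a : S.G) (k : ℤ), a ^ k = 1 ∨ a ^ k = a := by
        intro a k
        rcases Int.even_or_odd' k with ⟨j, rfl | rfl⟩
        · left
          rw [zpow_mul, zpow_two, hS.exp2, one_zpow]
        · right
          rw [zpow_add, zpow_mul, zpow_two, hS.exp2, one_zpow, one_mul, zpow_one]
      rcases hp x m with e | e <;> rcases hp y n with e' | e' <;> rw [e, e']
      · left; rw [mul_one]
      · right; right; left; rw [one_mul]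
      · right; left; rw [mul_one]
      · right; right; right; rfl
    have hxW : x ∈ Subgroup.closure ({x, y} : Set S.G) := Subgroup.subset_closure (by simp)
    have hyW : y ∈ Subgroup.closure ({x, y} : Set S.G) := Subgroup.subset_closure (by simp)
    have hsmall : Small (Subgroup.closure ({x, y} : Set S.G)) := by
      intro u hu v hv w hw
      have a1 : x * (x * y) = y := sq' hS x y
      have a2 : y * (x * y) = x := by rw [mul_left_comm, hS.exp2, mul_one]
      have a3 : x * y * x = y := by rw [mul_comm, a1]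
      have a4 : x * y * y = x := by rw [mul_comm, a2]
      rcases hW1 u hu with e1 | e1 | e1 | e1 <;> rcases hW1 v hv with e2 | e2 | e2 | e2 <;>
        rcases hW1 w hw with e3 | e3 | e3 | e3 <;> rw [e1, e2, e3] <;>
        first
          | exact Or.inl rfl
          | exact Or.inr (Or.inl rfl)
          | exact Or.inr (Or.inr (Or.inl rfl))
          | exact Or.inr (Or.inr (Or.inr (Or.inl rfl)))
          | exact Or.inr (Or.inr (Or.inr (Or.inr (Or.inl rfl))))
          | exact Or.inr (Or.inr (Or.inr (Or.inr (Or.inr (Or.inl rfl)))))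
          | exact Or.inr (Or.inr (Or.inr (Or.inr (Or.inr (Or.inr rfl)))))
          | exact Or.inr (Or.inr (Or.inr (Or.inr (Or.inr (Or.inr (mul_comm _ _))))))
          | exact Or.inr (Or.inr (Or.inr (Or.inr (Or.inr (Or.inr a1.symm)))))
          | exact Or.inr (Or.inr (Or.inr (Or.inr (Or.inr (Or.inr a2.symm)))))
          | exact Or.inr (Or.inr (Or.inr (Or.inr (Or.inr (Or.inr a3.symm)))))
          | exact Or.inr (Or.inr (Or.inr (Or.inr (Or.inr (Or.inr a4.symm)))))
    -- coordinates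
    have hl : ∀ p r : S.G, p ≠ 1 → r ≠ 1 → p ≠ r → ∃ l : S.G → ZMod 2,
        (∀ x y, l (x * y) = l x + l y) ∧ l p = 1 ∧ l r = 0 := by
      intro p r hp _ hpr
      obtain ⟨l, l1, l2, l3⟩ := exists_hom hS.exp2 (Subgroup.zpowers r) (g := p) (by
        intro hmem
        obtain ⟨n, hn⟩ := Subgroup.mem_zpowers_iff.1 hmem
        rcases Int.even_or_odd' n with ⟨k, rfl | rfl⟩
        · rw [zpow_mul, zpow_two, hS.exp2, one_zpow] at hn
          exact hp hn.symm
        · rw [zpow_add, zpow_mul, zpow_two, hS.exp2, one_zpow, one_mul, zpow_one] at hn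
          exact hpr hn.symm)
      exact ⟨l, l1, l3, l2 r (Subgroup.mem_zpowers r)⟩
    obtain ⟨l, l1, l2, l3⟩ := hl x y hx1 hy1 hxy
    obtain ⟨k, k1, k2, k3⟩ := hl y x hy1 hx1 (Ne.symm hxy)
    have lone : l 1 = 0 := by
      have := l1 1 1
      rw [mul_one] at this
      simpa using this
    have kone : k 1 = 0 := by
      have := k1 1 1
      rw [mul_one] at this
      simpa using this
    have hf1 : ∀ v, S.q x v = S.zero → F (v, 1) = 0 := by
      intro v hv
      refine F2 _ ⟨1, ?_, ?_, q_one hS _⟩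
      · show S.q x (v * 1) = S.zero
        rw [mul_one]; exact hv
      · show S.q y (1 * 1) = S.zero
        rw [mul_one]; exact q_one hS _
    have hf2 : ∀ v, S.q y v = S.zero → F (1, v) = 0 := by
      intro v hv
      refine F2 _ ⟨1, ?_, ?_, q_one hS _⟩
      · show S.q x (1 * 1) = S.zero
        rw [mul_one]; exact q_one hS _
      · show S.q y (v * 1) = S.zero
        rw [mul_one]; exact hv
    have hf3 : ∀ v, S.q (x * y) v = S.zero → F (v, 1) + F (1, v) = 0 := by
      intro v hv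
      rw [← F1]
      refine F2 _ ⟨v, ?_, ?_, hv⟩
      · show S.q x (v * 1 * v) = S.zero
        rw [mul_one, hS.exp2]; exact q_one hS _
      · show S.q y (1 * v * v) = S.zero
        rw [one_mul, hS.exp2]; exact q_one hS _
    obtain ⟨χ, hχ, hχW⟩ := ext_of_beta hS hsmall (β := fun _ _ => 0) (fun _ _ => rfl)
      (fun _ _ _ => (zadd 0).symm) (by
        intro b z
        refine ⟨fun _ => ?_, fun _ => rfl⟩
        obtain ⟨c, h1 | h1 | h1⟩ := h b z
        · exact ⟨x, hxW, c, h1⟩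
        · exact ⟨y, hyW, c, h1⟩
        · exact ⟨x * y, mul_mem hxW hyW, c, h1⟩)
      (χ₀ := fun w c => l w * F (c, 1) + k w * F (1, c)) ⟨fun a _ b _ c => by
          show l (a * b) * _ + k (a * b) * _ = _
          rw [l1, k1]
          ring, fun a _ b c => by
          show l a * F (b * c, 1) + k a * F (1, b * c) = _
          have e1 : ((b * c, 1) : S.G × S.G) = (b, 1) * (c, 1) := by simp
          have e2 : ((1, b * c) : S.G × S.G) = (1, b) * (1, c) := by simp
          rw [e1, e2, F1, F1]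
          ring, fun a ha b hab => by
          show l a * F (b, 1) + k a * F (1, b) = 0
          rcases hW1 a ha with rfl | rfl | rfl | rfl
          · rw [lone, kone]; ring
          · rw [l2, k3, hf1 b hab]; ring
          · rw [l3, k2, hf2 b hab]; ring
          · rw [l1, k1, l2, l3, k2, k3]
            have := hf3 b hab
            linear_combination this⟩
    have h1 := hs χ hχ
    rw [hχW x hxW, hχW y hyW, l2, l3, k2, k3] at h1
    have h3 : ((b, d) : S.G × S.G) = (b, 1) * (1, d) := by simp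
    rw [h3, F1] at F3
    have h4 : F (b, 1) = F (1, d) := by linear_combination h1
    rw [h4, zadd] at F3
    exact absurd F3 (by decide)
  -- two different slots
  have diff : ∀ x y : S.G, x ≠ 1 → y ≠ 1 → x ≠ y →
      (∀ a b, ∃ c, S.q a b = S.q x c ∨ S.q a b = S.q y c ∨ S.q a b = S.q (x * y) c) →
      ∀ b d, (∀ χ, Sym S χ → χ x b = χ y d) → S.q x b = S.q y d := by
    intro x y hx1 hy1 hxy h b d hs
    obtain ⟨v, v1, v2, v3⟩ := key x y hx1 hy1 hxy h b d hs
    rw [eq_r hS v1, eq_r hS v2]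
    exact eq_l hS v3
  -- equal slots
  have same : ∀ x y : S.G, x ≠ 1 → y ≠ 1 → x ≠ y →
      (∀ a b, ∃ c, S.q a b = S.q x c ∨ S.q a b = S.q y c ∨ S.q a b = S.q (x * y) c) →
      ∀ b d, (∀ χ, Sym S χ → χ x b = χ x d) → S.q x b = S.q x d := by
    intro x y hx1 hy1 hxy h b d hs
    obtain ⟨v, v1, v2, v3⟩ := key x y hx1 hy1 hxy h (b * d) 1 (by
      intro χ hχ
      have e1 : χ y 1 = 0 := hχ.2.2 _ _ (q_one hS y)
      rw [hχ.2.1, hs χ hχ, zadd, e1])
    rw [one_mul] at v2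
    have v4 : S.q x v = S.zero := by
      have := mul_left hS v3 v2
      rwa [mul_assoc, hS.exp2, mul_one] at this
    apply eq_r hS
    have := mul_right hS v1 v4
    rwa [mul_assoc, hS.exp2, mul_one] at this
  have hz1 : x * y ≠ 1 := by
    intro e
    apply hxy
    have e1 := sq' hS x y
    rw [e, mul_one] at e1
    exact e1
  have hxz : x ≠ x * y := by
    intro e
    apply hy1
    have e1 := sq' hS x y
    rw [← e, hS.exp2] at e1
    exact e1.symm
  have hyz : y ≠ x * y := by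
    intro e
    apply hx1
    have e1 : y * (x * y) = x := by rw [mul_left_comm, hS.exp2, mul_one]
    rw [← e, hS.exp2] at e1
    exact e1.symm
  have a1 : x * (x * y) = y := sq' hS x y
  have a2 : y * (x * y) = x := by rw [mul_left_comm, hS.exp2, mul_one]
  have g1 : ∀ a b, ∃ c, S.q a b = S.q y c ∨ S.q a b = S.q x c ∨ S.q a b = S.q (y * x) c := by
    intro a b
    obtain ⟨c, h1 | h1 | h1⟩ := h a b
    · exact ⟨c, Or.inr (Or.inl h1)⟩
    · exact ⟨c, Or.inl h1⟩
    · exact ⟨c, Or.inr (Or.inr (by rw [mul_comm y x]; exact h1))⟩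
  have g2 : ∀ a b, ∃ c, S.q a b = S.q x c ∨ S.q a b = S.q (x * y) c ∨
      S.q a b = S.q (x * (x * y)) c := by
    intro a b
    obtain ⟨c, h1 | h1 | h1⟩ := h a b
    · exact ⟨c, Or.inl h1⟩
    · exact ⟨c, Or.inr (Or.inr (by rw [a1]; exact h1))⟩
    · exact ⟨c, Or.inr (Or.inl h1)⟩
  have g3 : ∀ a b, ∃ c, S.q a b = S.q (x * y) c ∨ S.q a b = S.q x c ∨
      S.q a b = S.q (x * y * x) c := by
    intro a b
    obtain ⟨c, h1 | h1 | h1⟩ := h a b
    · exact ⟨c, Or.inr (Or.inl h1)⟩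
    · exact ⟨c, Or.inr (Or.inr (by rw [mul_comm, a1]; exact h1))⟩
    · exact ⟨c, Or.inl h1⟩
  have g4 : ∀ a b, ∃ c, S.q a b = S.q y c ∨ S.q a b = S.q (x * y) c ∨
      S.q a b = S.q (y * (x * y)) c := by
    intro a b
    obtain ⟨c, h1 | h1 | h1⟩ := h a b
    · exact ⟨c, Or.inr (Or.inr (by rw [a2]; exact h1))⟩
    · exact ⟨c, Or.inl h1⟩
    · exact ⟨c, Or.inr (Or.inl h1)⟩
  have g5 : ∀ a b, ∃ c, S.q a b = S.q (x * y) c ∨ S.q a b = S.q y c ∨
      S.q a b = S.q (x * y * y) c := by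
    intro a b
    obtain ⟨c, h1 | h1 | h1⟩ := h a b
    · exact ⟨c, Or.inr (Or.inr (by rw [mul_comm, a2]; exact h1))⟩
    · exact ⟨c, Or.inr (Or.inl h1)⟩
    · exact ⟨c, Or.inl h1⟩
  apply add_of_sep hS
  intro a b c d hs
  obtain ⟨b', hb⟩ := h a b
  obtain ⟨d', hd⟩ := h c d
  rcases hb with e | e | e <;> rcases hd with e' | e' | e' <;> rw [e, e']
  · exact same x y hx1 hy1 hxy h _ _ fun χ hχ => by
      rw [← sym_eq hS hχ e, ← sym_eq hS hχ e', hs χ hχ]
  · exact diff x y hx1 hy1 hxy h _ _ fun χ hχ => by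
      rw [← sym_eq hS hχ e, ← sym_eq hS hχ e', hs χ hχ]
  · exact diff x (x * y) hx1 hz1 hxz g2 _ _ fun χ hχ => by
      rw [← sym_eq hS hχ e, ← sym_eq hS hχ e', hs χ hχ]
  · exact diff y x hy1 hx1 (Ne.symm hxy) g1 _ _ fun χ hχ => by
      rw [← sym_eq hS hχ e, ← sym_eq hS hχ e', hs χ hχ]
  · exact same y x hy1 hx1 (Ne.symm hxy) g1 _ _ fun χ hχ => by
      rw [← sym_eq hS hχ e, ← sym_eq hS hχ e', hs χ hχ]
  · exact diff y (x * y) hy1 hz1 hyz g4 _ _ fun χ hχ => by
      rw [← sym_eq hS hχ e, ← sym_eq hS hχ e', hs χ hχ]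
  · exact diff (x * y) x hz1 hx1 (Ne.symm hxz) g3 _ _ fun χ hχ => by
      rw [← sym_eq hS hχ e, ← sym_eq hS hχ e', hs χ hχ]
  · exact diff (x * y) y hz1 hy1 (Ne.symm hyz) g5 _ _ fun χ hχ => by
      rw [← sym_eq hS hχ e, ← sym_eq hS hχ e', hs χ hχ]
  · exact same (x * y) x hz1 hx1 (Ne.symm hxz) g3 _ _ fun χ hχ => by
      rw [← sym_eq hS hχ e, ← sym_eq hS hχ e', hs χ hχ]

end main

end Pool.Agent.Helper94.ETC
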