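import Mathlib
import Pool.Graph.R_seed8.H315R3.ETC.Defs

set_option autoImplicit false

/-! # Quaternions with a common slot

`sum_indep`: the sum of two quaternions with a common slot does not depend on the common slot.
`triple`: if `t₁ ∈ Q_x`, `t₂ ∈ Q_y`, `t₃ ∈ Q_(xy)` have a common slot `z` and `t₁ + t₂ + t₃ = 0` in `Q_z`,
then `t₁ = q(x,g)`, `t₂ = q(y,g)`, `t₃ = q(xy,g)` for some `g`. -/

namespace Pool.Agent.Helper94.ETC

open Pool.Agent.H315R3.ETC

section basic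

variable {S : QData} (hS : IsQuat S)
include hS

theorem q_one (a : S.G) : S.q a 1 = S.zero := by
  have := (hS.qs3 a 1 1).1 rfl
  rwa [one_mul] at this

theorem one_q (a : S.G) : S.q 1 a = S.zero := by
  rw [hS.qs2]; exact q_one hS a

theorem sq' (a b : S.G) : a * (a * b) = b := by
  rw [← mul_assoc, hS.exp2, one_mul]

theorem mul_right {a b c : S.G} (h : S.q a b = S.zero) (h' : S.q a c = S.zero) :
    S.q a (b * c) = S.zero := (hS.qs3 _ _ _).1 (h.trans h'.symm)

theorem mul_left {a b c : S.G} (h : S.q a c = S.zero) (h' : S.q b c = S.zero) :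
    S.q (a * b) c = S.zero := by
  rw [hS.qs2]
  exact mul_right hS (by rw [hS.qs2]; exact h) (by rw [hS.qs2]; exact h')

/-- `q(a,b) = q(a,c)` if `bc ∈ V(a)` -/
theorem eq_r {a b c : S.G} (h : S.q a (b * c) = S.zero) : S.q a b = S.q a c := (hS.qs3 _ _ _).2 h

theorem of_eq_r {a b c : S.G} (h : S.q a b = S.q a c) : S.q a (b * c) = S.zero :=
  (hS.qs3 _ _ _).1 h

/-- `q(a,c) = q(b,c)` if `c ∈ V(ab)` -/
theorem eq_l {a b c : S.G} (h : S.q (a * b) c = S.zero) : S.q a c = S.q b c := by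
  rw [hS.qs2 a, hS.qs2 b]
  exact eq_r hS (by rw [hS.qs2]; exact h)

theorem of_eq_l {a b c : S.G} (h : S.q a c = S.q b c) : S.q (a * b) c = S.zero := by
  rw [hS.qs2 a, hS.qs2 b] at h
  rw [hS.qs2]
  exact of_eq_r hS h

/-- linkage: equal quaternions have the same second slot -/
theorem link {a b c d : S.G} (h : S.q a b = S.q c d) :
    ∃ x, S.q a b = S.q a x ∧ S.q c d = S.q c x ∧ S.q (a * c) x = S.zero := by
  obtain ⟨x, h1, h2⟩ := hS.qs4 _ _ _ _ h
  exact ⟨x, h1, h2, of_eq_l hS (h1.symm.trans (h.trans h2))⟩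

/-- the sum of two quaternions does not depend on the common slot -/
theorem sum_indep {a b x y x' y' : S.G} (h : S.q a x = S.q b y) (h' : S.q a x' = S.q b y') :
    S.q a (x * x') = S.q b (y * y') := by
  obtain ⟨z, h1, h2, h3⟩ := link hS h
  obtain ⟨z', h1', h2', h3'⟩ := link hS h'
  have e1 : S.q a (x * x') = S.q a (z * z') := by
    apply eq_r hS
    rw [mul_mul_mul_comm]
    exact mul_right hS (of_eq_r hS h1) (of_eq_r hS h1')
  have e2 : S.q b (y * y') = S.q b (z * z') := by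
    apply eq_r hS
    rw [mul_mul_mul_comm]
    exact mul_right hS (of_eq_r hS h2) (of_eq_r hS h2')
  rw [e1, e2]
  exact eq_l hS (mul_right hS h3 h3')

/-- three quaternions `t₁ ∈ Q_x`, `t₂ ∈ Q_y`, `t₃ ∈ Q_(xy)` with a common slot `z` and sum zero
in `Q_z` are `q(x,g)`, `q(y,g)`, `q(xy,g)` for some `g` -/
theorem triple {x y z b₁ b₂ b₃ y₁ y₂ y₃ : S.G} (h₁ : S.q x b₁ = S.q z y₁)
    (h₂ : S.q y b₂ = S.q z y₂) (h₃ : S.q (x * y) b₃ = S.q z y₃)
    (h : S.q z (y₁ * y₂ * y₃) = S.zero) :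
    ∃ g, S.q x b₁ = S.q x g ∧ S.q y b₂ = S.q y g ∧ S.q (x * y) b₃ = S.q (x * y) g := by
  obtain ⟨v₁, a1, a2, a3⟩ := link hS h₁
  obtain ⟨v₂, b1, b2, b3⟩ := link hS h₂
  obtain ⟨v₃, c1, c2, c3⟩ := link hS h₃
  -- `n = v₁ v₂ v₃` is in `V(z)`
  have hn : S.q z (v₁ * v₂ * v₃) = S.zero := by
    have e : S.q z (y₁ * y₂ * y₃) = S.q z (v₁ * v₂ * v₃) := by
      apply eq_r hS
      have : y₁ * y₂ * y₃ * (v₁ * v₂ * v₃) = (y₁ * v₁) * (y₂ * v₂) * (y₃ * v₃) := by
        simp only [mul_assoc, mul_left_comm, mul_comm]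
      rw [this]
      exact mul_right hS (mul_right hS (of_eq_r hS a2) (of_eq_r hS b2)) (of_eq_r hS c2)
    rw [← e]; exact h
  set n := v₁ * v₂ * v₃ with hn'
  have hv3 : v₁ * (v₂ * n) = v₃ := by
    rw [hn']
    calc v₁ * (v₂ * (v₁ * v₂ * v₃)) = (v₁ * v₁) * (v₂ * v₂) * v₃ := by
          simp only [mul_assoc, mul_left_comm, mul_comm]
      _ = v₃ := by rw [hS.exp2, hS.exp2, one_mul, one_mul]
  have hzz : ∀ a b : S.G, a * b * (b * a) = 1 := by
    intro a b
    rw [mul_comm b a]; exact hS.exp2 _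
  -- (2) `q(x,v₂) = q(v₁ n, xyz)`
  have s1 : S.q x v₂ = S.q (v₁ * n) (x * y * z) := by
    have e1 : S.q x v₂ = S.q (x * y * z) v₂ := by
      apply eq_l hS
      have : x * (x * y * z) = y * z := by
        rw [mul_assoc, sq' hS]
      rw [this]; exact b3
    rw [e1, hS.qs2 (v₁ * n)]
    apply eq_r hS
    have : v₂ * (v₁ * n) = v₃ := by rw [← hv3]; simp only [mul_left_comm]
    rw [this]; exact c3
  -- (3) `q(x,n) = q(v₁ n, xz)`
  have s2 : S.q x n = S.q (v₁ * n) (x * z) := by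
    have e1 : S.q x n = S.q (x * z) n := by
      apply eq_l hS
      rw [sq' hS]; exact hn
    rw [e1, hS.qs2 (v₁ * n)]
    apply eq_r hS
    have : n * (v₁ * n) = v₁ := by
      rw [mul_left_comm, hS.exp2, mul_one]
    rw [this]; exact a3
  -- hence `q(x, v₂ n) = q(v₁ n, y)`
  have s3 := sum_indep hS s1 s2
  have e4 : x * y * z * (x * z) = y := by
    calc x * y * z * (x * z) = (x * x) * (z * z) * y := by
          simp only [mul_assoc, mul_left_comm, mul_comm]
      _ = y := by rw [hS.exp2, hS.exp2, one_mul, one_mul]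
  rw [e4, hS.qs2 (v₁ * n)] at s3
  obtain ⟨m, m1, m2, m3⟩ := link hS s3
  refine ⟨v₃ * m, ?_, ?_, ?_⟩
  · rw [a1]
    apply eq_r hS
    have : v₁ * (v₃ * m) = v₂ * n * m := by
      rw [← hv3]
      calc v₁ * (v₁ * (v₂ * n) * m) = (v₁ * v₁) * (v₂ * n * m) := by
            simp only [mul_assoc]
        _ = v₂ * n * m := by rw [hS.exp2, one_mul]
    rw [this]; exact of_eq_r hS m1
  · rw [b1]
    apply eq_r hS
    have : v₂ * (v₃ * m) = v₁ * n * m := by
      rw [← hv3]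
      calc v₂ * (v₁ * (v₂ * n) * m) = (v₂ * v₂) * (v₁ * n * m) := by
            simp only [mul_assoc, mul_left_comm]
        _ = v₁ * n * m := by rw [hS.exp2, one_mul]
    rw [this]; exact of_eq_r hS m2
  · rw [c1]
    apply eq_r hS
    rw [sq' hS]; exact m3

end basic

end Pool.Agent.Helper94.ETC
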