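import Pool.Agent.Helper94.ETC.Add

set_option autoImplicit false

/-! # Counting quaternions -/

namespace Pool.Agent.Helper94.ETC

open Pool.Agent.H315R3.ETC
open Pool.Agent.HP953.EH (AddQuat Sym sym_eq)

section count

variable {S : QData} (hS : IsQuat S)

/-- the value group `V(a)` -/
def VG (hS : IsQuat S) (a : S.G) : Subgroup S.G where
  carrier := {x | S.q a x = S.zero}
  one_mem' := q_one hS a
  mul_mem' := fun h h' => mul_right hS h h'
  inv_mem' := fun {x} hx => by
    have : x⁻¹ = x := inv_eq_of_mul_eq_one_left (hS.exp2 x)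
    rwa [this]

/-- the quaternions with slot `a` -/
def RQ (S : QData) (a : S.G) : Set S.Q := Set.range (S.q a)

theorem mem_VG {a x : S.G} : x ∈ VG hS a ↔ S.q a x = S.zero := Iff.rfl

theorem inv_self (x : S.G) (hS : IsQuat S) : x⁻¹ = x := inv_eq_of_mul_eq_one_left (hS.exp2 x)

/-- the number of quaternions `q(a,k)`, `k ∈ K` -/
theorem ncard_image (a : S.G) (K : Subgroup S.G) :
    ((S.q a) '' (K : Set S.G)).ncard = (VG hS a).relIndex K := by
  let f : K → S.Q := fun k => S.q a k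
  have h1 : (S.q a) '' (K : Set S.G) = Set.range f := by
    ext t
    constructor
    · rintro ⟨k, hk, rfl⟩
      exact ⟨⟨k, hk⟩, rfl⟩
    · rintro ⟨k, rfl⟩
      exact ⟨k, k.2, rfl⟩
  have h2 : QuotientGroup.leftRel ((VG hS a).subgroupOf K) = Setoid.ker f := by
    ext x y
    rw [QuotientGroup.leftRel_apply, Subgroup.mem_subgroupOf, Setoid.ker_def]
    show S.q a ((x : S.G)⁻¹ * y) = S.zero ↔ S.q a x = S.q a y
    rw [inv_self (x : S.G) hS]
    exact ⟨eq_r hS, of_eq_r hS⟩
  rw [h1, ← Nat.card_coe_set_eq, Subgroup.relIndex, Subgroup.index]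
  symm
  show Nat.card (Quotient (QuotientGroup.leftRel ((VG hS a).subgroupOf K))) = _
  rw [h2]
  exact Nat.card_congr (Setoid.quotientKerEquivRange f)

theorem ncard_RQ (a : S.G) : (RQ S a).ncard = (VG hS a).index := by
  have := ncard_image hS a ⊤
  rw [Subgroup.relIndex_top_right] at this
  rw [← this, RQ]
  congr 1
  ext t
  simp

theorem RQ_inter (a b : S.G) : RQ S a ∩ RQ S b = (S.q a) '' (VG hS (a * b) : Set S.G) := by
  ext t
  constructor
  · rintro ⟨⟨y, rfl⟩, z, hz⟩
    obtain ⟨x, h1, h2, h3⟩ := link hS hz.symm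
    exact ⟨x, h3, h1.symm⟩
  · rintro ⟨x, hx, rfl⟩
    exact ⟨⟨x, rfl⟩, x, (eq_l hS hx).symm⟩

theorem ncard_inter (a b : S.G) : (RQ S a ∩ RQ S b).ncard = (VG hS a).relIndex (VG hS (a * b)) := by
  rw [RQ_inter hS, ncard_image]

theorem VG_inf (a b : S.G) : VG hS a ⊓ VG hS (a * b) = VG hS a ⊓ VG hS b := by
  ext x
  simp only [Subgroup.mem_inf, mem_VG]
  constructor
  · rintro ⟨h1, h2⟩
    refine ⟨h1, ?_⟩
    have := mul_left hS h1 h2
    rwa [sq' hS] at this
  · rintro ⟨h1, h2⟩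
    exact ⟨h1, mul_left hS h1 h2⟩

/-- `|Q_a ∩ Q_b| · |Q_(ab)|` is the index of `V(a) ∩ V(b)` -/
theorem inter_mul (a b : S.G) :
    (RQ S a ∩ RQ S b).ncard * (RQ S (a * b)).ncard = (VG hS a ⊓ VG hS b).index := by
  rw [ncard_inter hS, ncard_RQ hS, ← Subgroup.inf_relIndex_right, ← VG_inf hS a b]
  exact Subgroup.relIndex_mul_index inf_le_right

/-- `|Q_a ∩ Q_b| · [G : V(b) V(ab)] = |Q_b|` -/
theorem inter_mul_sup (a b : S.G) :
    (RQ S a ∩ RQ S b).ncard * (VG hS b ⊔ VG hS (a * b)).index = (RQ S b).ncard := by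
  rw [Set.inter_comm, ncard_inter hS, ncard_RQ hS, mul_comm b a, ← Subgroup.relIndex_sup_left]
  exact Subgroup.relIndex_mul_index le_sup_left

/-- `q(b,x)` is in `Q_a` if and only if `x` is in `V(b) V(ab)` -/
theorem mem_sup_iff (a b x : S.G) :
    x ∈ VG hS b ⊔ VG hS (a * b) ↔ ∃ y, S.q b x = S.q a y := by
  rw [Subgroup.mem_sup]
  constructor
  · rintro ⟨u, hu, v, hv, rfl⟩
    refine ⟨v, ?_⟩
    have h1 : S.q b (u * v) = S.q b v := by
      apply eq_r hS
      rw [mul_assoc, hS.exp2, mul_one]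
      exact hu
    rw [h1]
    exact (eq_l hS hv).symm
  · rintro ⟨y, hy⟩
    obtain ⟨z, h1, h2, h3⟩ := link hS hy
    refine ⟨x * z, of_eq_r hS h1, z, ?_, ?_⟩
    · show S.q (a * b) z = S.zero
      rwa [mul_comm]
    · rw [mul_assoc, hS.exp2, mul_one]

theorem exists_slot_mul {a b x y : S.G} (h1 : ¬ ∃ z, S.q b x = S.q a z)
    (h2 : ¬ ∃ z, S.q b y = S.q a z) (hi : (VG hS b ⊔ VG hS (a * b)).index ≤ 2) (hi0 : (VG hS b ⊔ VG hS (a * b)).index ≠ 0) :
    ∃ z, S.q b (x * y) = S.q a z := by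
  rw [← mem_sup_iff hS] at h1 h2 ⊢
  have h3 : (VG hS b ⊔ VG hS (a * b)).index = 2 := by
    have h4 : (VG hS b ⊔ VG hS (a * b)).index ≠ 1 := by
      intro h
      rw [Subgroup.index_eq_one] at h
      rw [h] at h1
      exact h1 trivial
    omega
  exact (Subgroup.mul_mem_iff_of_index_two h3).2 (iff_of_false h1 h2)

/-- **Additivity from one slot**: if `V(b) V(ab)` has index at most two for all `b` (and one `a`) -/
theorem add_of_index (a : S.G)
    (h : ∀ b, (VG hS b ⊔ VG hS (a * b)).index ≤ 2 ∧ (VG hS b ⊔ VG hS (a * b)).index ≠ 0) :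
    AddQuat S := by
  classical
  let β : S.G → S.G → ZMod 2 := fun b x => if ∃ y, S.q b x = S.q a y then 0 else 1
  have β0 : ∀ b x, β b x = 0 ↔ ∃ y, S.q b x = S.q a y := by
    intro b x
    by_cases hb : ∃ y, S.q b x = S.q a y
    · simp only [β, if_pos hb, true_iff]; exact hb
    · simp only [β, if_neg hb]
      exact ⟨fun h => absurd h (by decide), fun h => absurd h hb⟩
  have β1 : ∀ b x, (¬ ∃ y, S.q b x = S.q a y) → β b x = 1 := by
    intro b x hb
    simp only [β, if_neg hb]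
  refine add_of_slot hS a (β := β) ?_ ?_ β0
  · intro u v
    simp only [β, hS.qs2 u v]
  · intro b x y
    have key : ∀ x, (∃ z, S.q b x = S.q a z) → ∀ y, β b (x * y) = β b y := by
      rintro x hx y
      by_cases hy : ∃ z, S.q b y = S.q a z
      · rw [(β0 _ _).2 hy, β0]
        rw [← mem_sup_iff hS] at hx hy ⊢
        exact mul_mem hx hy
      · rw [β1 _ _ hy]
        apply β1
        intro hxy
        apply hy
        rw [← mem_sup_iff hS] at hx hxy ⊢
        have := mul_mem hx hxy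
        rwa [sq' hS] at this
    by_cases hx : ∃ z, S.q b x = S.q a z
    · rw [key x hx, (β0 b x).2 hx, zero_add]
    · by_cases hy : ∃ z, S.q b y = S.q a z
      · rw [mul_comm, key y hy, (β0 b y).2 hy, add_zero]
      · rw [β1 _ _ hx, β1 _ _ hy, (β0 _ _).2 (exists_slot_mul hS hx hy (h b).1 (h b).2)]
        decide

/-- the zero quaternion has all slots -/
theorem zero_mem (hS : IsQuat S) (a : S.G) : S.zero ∈ RQ S a := ⟨1, q_one hS a⟩

/-- **Counting** the quaternions with slot `a`, `b` or `c` -/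
theorem union_card (hS : IsQuat S) [Finite S.G] (a b c : S.G) :
    (RQ S a).ncard + (RQ S b).ncard + (RQ S c).ncard + 1 ≤
      (RQ S a ∪ RQ S b ∪ RQ S c).ncard + (RQ S b ∩ RQ S c).ncard + (RQ S a ∩ RQ S c).ncard +
        (RQ S a ∩ RQ S b).ncard := by
  have hf : ∀ x, (RQ S x).Finite := fun x => Set.finite_range _
  have h1 := Set.ncard_union_add_ncard_inter (RQ S a) (RQ S b) (hf a) (hf b)
  have h2 := Set.ncard_union_add_ncard_inter (RQ S a ∪ RQ S b) (RQ S c) ((hf a).union (hf b)) (hf c)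
  rw [Set.union_inter_distrib_right] at h2
  have h3 := Set.ncard_union_add_ncard_inter (RQ S a ∩ RQ S c) (RQ S b ∩ RQ S c)
    ((hf a).inter_of_left _) ((hf b).inter_of_left _)
  have h4 : 0 < (RQ S a ∩ RQ S c ∩ (RQ S b ∩ RQ S c)).ncard := by
    rw [Set.ncard_pos (((hf a).inter_of_left _).inter_of_left _)]
    exact ⟨S.zero, ⟨zero_mem hS _, zero_mem hS _⟩, zero_mem hS _, zero_mem hS _⟩
  omega

/-- the index of a subgroup is a power of two -/
theorem index_pow (hS : IsQuat S) [Finite S.G] (K : Subgroup S.G) : ∃ n, K.index = 2 ^ n := by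
  have h : IsPGroup 2 S.G := fun g => ⟨1, by rw [pow_one, pow_two, hS.exp2]⟩
  exact h.index K

/-- arithmetic of a triple `a`, `b`, `ab` -/
theorem arith {A B C ia ib ic J n : ℕ} (hA : A = 2 ^ n) (hn : 3 ≤ n) (hn4 : n ≤ 4)
    (hJ : ∃ j, J = 2 ^ j) (hJ4 : 3 ≤ J)
    (hic : ∃ p, ic = 2 ^ p) (hib : ∃ p, ib = 2 ^ p) (hia : ∃ p, ia = 2 ^ p)
    (hB : ic * J = B) (hC : ib * J = C) (h1 : ia * A = ib * B) (hBA : B ≤ A) (hCA : C ≤ A) :
    17 + ia + ib + ic ≤ A + B + C + 1 ∧ (n = 4 → 28 + ia + ib + ic ≤ A + B + C + 1) := by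
  obtain ⟨j, rfl⟩ := hJ
  obtain ⟨p, rfl⟩ := hic
  obtain ⟨q, rfl⟩ := hib
  obtain ⟨r, rfl⟩ := hia
  subst hA hB hC
  rw [← pow_add] at hBA hCA
  have h2 : r + n = q + (p + j) := by
    rw [← pow_add, ← pow_add, ← pow_add] at h1
    exact Nat.pow_right_injective le_rfl h1
  have h3 : p + j ≤ n := (Nat.pow_le_pow_iff_right (by norm_num)).1 hBA
  have h4 : q + j ≤ n := (Nat.pow_le_pow_iff_right (by norm_num)).1 hCA
  have h5 : 2 ≤ j := by
    by_contra h
    have : j = 0 ∨ j = 1 := by omega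
    rcases this with rfl | rfl <;> omega
  have h6 : r = q + p + j - n := by omega
  have h7 : n ≤ q + p + j := by omega
  clear h1 h2 hBA hCA hJ4
  subst h6
  have hj : j ≤ 4 := by omega
  have hp : p ≤ 2 := by omega
  have hq : q ≤ 2 := by omega
  interval_cases n <;> interval_cases j <;> interval_cases p <;> interval_cases q <;>
    omega

/-- the number of quaternions with slots `a` and `b` is a power of two -/
theorem inter_pow (hS : IsQuat S) [Finite S.G] (a b : S.G) :
    ∃ n, (RQ S a ∩ RQ S b).ncard = 2 ^ n := by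
  obtain ⟨n, hn⟩ := index_pow hS (VG hS a ⊓ VG hS b)
  have h := inter_mul hS a b
  rw [hn] at h
  obtain ⟨k, -, hk⟩ := (Nat.dvd_prime_pow Nat.prime_two).1 (Dvd.intro _ h)
  exact ⟨k, hk⟩

/-- the set of all quaternions -/
def AQ (S : QData) : Set S.Q := {t | ∃ a b, S.q a b = t}

theorem AQ_finite (S : QData) [Finite S.G] : (AQ S).Finite := by
  refine (Set.finite_range (fun p : S.G × S.G => S.q p.1 p.2)).subset ?_
  rintro t ⟨a, b, rfl⟩
  exact ⟨(a, b), rfl⟩

theorem RQ_sub (S : QData) (a : S.G) : RQ S a ⊆ AQ S := by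
  rintro t ⟨b, rfl⟩
  exact ⟨a, b, rfl⟩

/-- the union of three sets `Q_a`, `Q_b`, `Q_(ab)`, if `V(b) V(ab)` has index at least three -/
theorem union_large (hS : IsQuat S) [Finite S.G] {a b : S.G}
    (hmax : ∀ x, (VG hS x).index ≤ (VG hS a).index) (h4 : 4 < (VG hS a).index)
    (h16 : (VG hS a).index < 32) (hJ : 2 < (VG hS b ⊔ VG hS (a * b)).index) :
    17 ≤ (RQ S a ∪ RQ S b ∪ RQ S (a * b)).ncard ∧ ((VG hS a).index = 16 →
      28 ≤ (RQ S a ∪ RQ S b ∪ RQ S (a * b)).ncard) := by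
  obtain ⟨n, hn⟩ := index_pow hS (VG hS a)
  have hn3 : 3 ≤ n := by
    by_contra h
    have : n ≤ 2 := by omega
    have h5 : 2 ^ n ≤ 2 ^ 2 := Nat.pow_le_pow_right (by norm_num) this
    omega
  have hn4 : n ≤ 4 := by
    by_contra h
    have : 5 ≤ n := by omega
    have h5 : 2 ^ 5 ≤ 2 ^ n := Nat.pow_le_pow_right (by norm_num) this
    omega
  have hab : a * (a * b) = b := sq' hS a b
  have hba : b * (a * b) = a := by rw [mul_comm a b]; exact sq' hS b a
  -- the equations
  have e1 : (RQ S a ∩ RQ S b).ncard * (VG hS b ⊔ VG hS (a * b)).index = (RQ S b).ncard :=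
    inter_mul_sup hS a b
  have e2 : (RQ S a ∩ RQ S (a * b)).ncard * (VG hS b ⊔ VG hS (a * b)).index =
      (RQ S (a * b)).ncard := by
    have := inter_mul_sup hS a (a * b)
    rwa [hab, sup_comm] at this
  have e3 : (RQ S b ∩ RQ S (a * b)).ncard * (RQ S a).ncard =
      (RQ S a ∩ RQ S (a * b)).ncard * (RQ S b).ncard := by
    have h1 := inter_mul hS b (a * b)
    have h2 := inter_mul hS a (a * b)
    rw [hba] at h1
    rw [hab, VG_inf hS a b] at h2
    have h3 : VG hS b ⊓ VG hS (a * b) = VG hS a ⊓ VG hS b := by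
      rw [mul_comm a b, VG_inf hS b a, inf_comm]
    rw [h1, h2, h3]
  have hA : (RQ S a).ncard = 2 ^ n := by rw [ncard_RQ hS, hn]
  have hm : ∀ x, (RQ S x).ncard ≤ (RQ S a).ncard := by
    intro x
    rw [ncard_RQ hS, ncard_RQ hS]
    exact hmax x
  obtain ⟨k1, k2⟩ := arith hA hn3 hn4 (index_pow hS (VG hS b ⊔ VG hS (a * b))) hJ
    (inter_pow hS a b) (inter_pow hS a (a * b)) (inter_pow hS b (a * b)) e1 e2 e3 (hm _) (hm _)
  have hu := union_card hS a b (a * b)
  refine ⟨by omega, fun h => ?_⟩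
  have hn' : n = 4 := by
    rw [hn] at h
    exact Nat.pow_right_injective le_rfl (h.trans (by norm_num : 16 = 2 ^ 4))
  have := k2 hn'
  omega

/-- **Additivity** of the quaternions, if there are few of them -/
theorem add_of_few (hS : IsQuat S) [Finite S.G] {a : S.G}
    (hmax : ∀ x, (VG hS x).index ≤ (VG hS a).index) (h4 : 4 < (VG hS a).index)
    (hq : (AQ S).ncard ≤ 17 ∨ ((AQ S).ncard ≤ 27 ∧ 8 < (VG hS a).index)) : AddQuat S := by
  by_cases hJ : ∀ b, (VG hS b ⊔ VG hS (a * b)).index ≤ 2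
  · exact add_of_index hS a fun b => ⟨hJ b, Subgroup.index_ne_zero_of_finite⟩
  · push_neg at hJ
    obtain ⟨b, hb⟩ := hJ
    have hle : ∀ x, (VG hS x).index ≤ (AQ S).ncard := by
      intro x
      rw [← ncard_RQ hS]
      exact Set.ncard_le_ncard (RQ_sub S x) (AQ_finite S)
    have h32 : (VG hS a).index < 32 := by
      have := hle a
      omega
    obtain ⟨k1, k2⟩ := union_large hS hmax h4 h32 hb
    have hsub : RQ S a ∪ RQ S b ∪ RQ S (a * b) ⊆ AQ S :=
      Set.union_subset (Set.union_subset (RQ_sub S a) (RQ_sub S b)) (RQ_sub S _)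
    have hcard := Set.ncard_le_ncard hsub (AQ_finite S)
    by_cases h8 : 8 < (VG hS a).index
    · obtain ⟨n, hn⟩ := index_pow hS (VG hS a)
      have h16 : (VG hS a).index = 16 := by
        have h3 : 3 < n := by
          by_contra h
          have : n ≤ 3 := by omega
          have h5 : 2 ^ n ≤ 2 ^ 3 := Nat.pow_le_pow_right (by norm_num) this
          omega
        have h5 : n < 5 := by
          by_contra h
          have : 5 ≤ n := by omega
          have h5 : 2 ^ 5 ≤ 2 ^ n := Nat.pow_le_pow_right (by norm_num) this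
          omega
        have : n = 4 := by omega
        rw [hn, this]
        norm_num
      have := k2 h16
      omega
    · have h17 : (AQ S).ncard ≤ 17 := by
        rcases hq with h | h
        · exact h
        · exact absurd h.2 h8
      have heq : RQ S a ∪ RQ S b ∪ RQ S (a * b) = AQ S :=
        Set.eq_of_subset_of_ncard_le hsub (h17.trans k1) (AQ_finite S)
      refine add_of_three hS a b fun c d => ?_
      have hcd : S.q c d ∈ RQ S a ∪ RQ S b ∪ RQ S (a * b) := by
        rw [heq]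
        exact ⟨c, d, rfl⟩
      rcases hcd with (⟨y, hy⟩ | ⟨y, hy⟩) | ⟨y, hy⟩
      · exact ⟨y, Or.inl hy.symm⟩
      · exact ⟨y, Or.inr (Or.inl hy.symm)⟩
      · exact ⟨y, Or.inr (Or.inr hy.symm)⟩

end count

end Pool.Agent.Helper94.ETC
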