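import Pool.Agent.Helper94.ETC.Ext
import Pool.Graph.R_seed8.H315R3.ETC.Defs

set_option autoImplicit false

/-! # Partial bilinear forms on structures of elementary type

Let `T` be a structure of elementary type. A function `κ` on the pairs `(a,b)` with `q(a,b) = 0`
which is symmetric, additive and zero at the pairs `(a,-a)` extends to a bilinear form. -/

namespace Pool.Agent.Helper94.ETC

open Pool.Agent.H315R3.ETC

/-- basic facts on the pairs with `q(a,b) = 0` -/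
structure NB (T : QData) : Prop where
  e2 : ∀ a : T.G, a * a = 1
  ng : ∀ a : T.G, T.q a (T.neg * a) = T.q 1 1
  sy : ∀ a b : T.G, T.q a b = T.q 1 1 → T.q b a = T.q 1 1
  on : ∀ a : T.G, T.q a 1 = T.q 1 1
  mu : ∀ a b c : T.G, T.q a b = T.q 1 1 → T.q a c = T.q 1 1 → T.q a (b * c) = T.q 1 1

/-- `κ` is symmetric and additive on the pairs with `q(a,b) = 0`, and zero at `(a,-a)` -/
structure Adm (T : QData) (κ : T.G → T.G → ZMod 2) : Prop where
  s : ∀ a b, T.q a b = T.q 1 1 → κ a b = κ b a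
  m : ∀ a b c, T.q a b = T.q 1 1 → T.q a c = T.q 1 1 → κ a (b * c) = κ a b + κ a c
  n : ∀ a, κ a (T.neg * a) = 0

/-- such `κ` extend to bilinear forms -/
def ExtP (T : QData) : Prop :=
  ∀ κ : T.G → T.G → ZMod 2, Adm T κ → ∃ χ : T.G → T.G → ZMod 2,
    (∀ a b c, χ (a * b) c = χ a c + χ b c) ∧ (∀ a b c, χ a (b * c) = χ a b + χ a c) ∧
    ∀ a b, T.q a b = T.q 1 1 → χ a b = κ a b

theorem q11 {T : QData} (h : IsQuat T) : T.q 1 1 = T.zero := by
  have := (h.qs3 1 1 1).1 rfl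
  rwa [one_mul] at this

theorem NB.of_quat {T : QData} (h : IsQuat T) : NB T := by
  have h1 : ∀ a, T.q a 1 = T.q 1 1 := by
    intro a
    have := (h.qs3 a 1 1).1 rfl
    rw [one_mul] at this
    rw [this, q11 h]
  refine ⟨h.exp2, fun a => by rw [h.qs1, q11 h], fun a b hab => by rw [h.qs2]; exact hab, h1,
    fun a b c hb hc => ?_⟩
  rw [(h.qs3 _ _ _).1 (hb.trans hc.symm), q11 h]

section

variable {T : QData}

theorem NB.mul (h : NB T) {a b c : T.G} (hb : T.q a c = T.q 1 1) (hc : T.q b c = T.q 1 1) :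
    T.q (a * b) c = T.q 1 1 := h.sy _ _ (h.mu _ _ _ (h.sy _ _ hb) (h.sy _ _ hc))

theorem NB.oneq (h : NB T) (a : T.G) : T.q 1 a = T.q 1 1 := h.sy _ _ (h.on a)

theorem Adm.l (h : NB T) {κ : T.G → T.G → ZMod 2} (k : Adm T κ) {a b c : T.G}
    (ha : T.q a c = T.q 1 1) (hb : T.q b c = T.q 1 1) : κ (a * b) c = κ a c + κ b c := by
  rw [k.s _ _ (h.mul ha hb), k.m _ _ _ (h.sy _ _ ha) (h.sy _ _ hb), ← k.s _ _ ha, ← k.s _ _ hb]

theorem Adm.one (h : NB T) {κ : T.G → T.G → ZMod 2} (k : Adm T κ) (a : T.G) : κ a 1 = 0 := by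
  have := k.m a 1 1 (h.on a) (h.on a)
  rw [mul_one] at this
  simpa using this

theorem Adm.one' (h : NB T) {κ : T.G → T.G → ZMod 2} (k : Adm T κ) (a : T.G) : κ 1 a = 0 := by
  rw [← k.s _ _ (h.on a), k.one h]

/-- the structures with `q = 0` -/
theorem extP_triv (h : NB T) (h0 : ∀ a b, T.q a b = T.q 1 1) : ExtP T := fun κ k =>
  ⟨κ, fun a b c => k.l h (h0 _ _) (h0 _ _), fun a b c => k.m a b c (h0 _ _) (h0 _ _),
    fun _ _ _ => rfl⟩

/-- the structures with two quaternions -/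
theorem extP_form (h : NB T) {β : T.G → T.G → ZMod 2}
    (βs : ∀ a b, β a b = β b a) (βm : ∀ a b c, β a (b * c) = β a b + β a c)
    (hβ : ∀ a b, T.q a b = T.q 1 1 ↔ β a b = 0) : ExtP T := by
  intro κ k
  obtain ⟨χ, c1, c2, c3⟩ := extend h.e2 β κ βs βm (fun a b hab => k.s _ _ ((hβ _ _).2 hab))
    (fun a b c hb hc => k.m _ _ _ ((hβ _ _).2 hb) ((hβ _ _).2 hc)) (by
    intro b c d hbc hbd hcd
    have sq : ∀ a b : T.G, a * (a * b) = b := fun a b => by rw [← mul_assoc, h.e2, one_mul]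
    -- all three are `κ(z, ·)` for `z = -bcd`
    have key : ∀ p r : T.G, T.q p r = T.q 1 1 → T.q (T.neg * (p * r)) r = T.q 1 1 ∧
        κ (T.neg * (p * r)) r = κ p r := by
      intro p r hpr
      have e1 : T.neg * (p * r) = p * (T.neg * r) := mul_left_comm _ _ _
      have h1 : T.q (T.neg * r) r = T.q 1 1 := h.sy _ _ (h.ng r)
      rw [e1]
      refine ⟨h.mul hpr h1, ?_⟩
      rw [k.l h hpr h1, k.s _ _ h1, k.n, add_zero]
    have o1 : T.q b (c * d) = T.q 1 1 := (hβ _ _).2 (by rw [βm, hbc, hbd, zadd])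
    have o2 : T.q c (b * d) = T.q 1 1 := (hβ _ _).2 (by rw [βm, βs c b, hbc, hcd, zadd])
    have o3 : T.q d (b * c) = T.q 1 1 := (hβ _ _).2 (by rw [βm, βs d b, βs d c, hbd, hcd, zadd])
    obtain ⟨k1, k1'⟩ := key _ _ o1
    obtain ⟨k2, k2'⟩ := key _ _ o2
    obtain ⟨k3, k3'⟩ := key _ _ o3
    have z2 : T.neg * (c * (b * d)) = T.neg * (b * (c * d)) := by rw [mul_left_comm c b d]
    have z3 : T.neg * (d * (b * c)) = T.neg * (b * (c * d)) := by
      rw [mul_comm d, mul_assoc]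
    rw [z2] at k2 k2'
    rw [z3] at k3 k3'
    rw [← k1', ← k2', ← k3', ← k.m _ _ _ k1 k2, ← k.m _ _ _ (h.mu _ _ _ k1 k2) k3]
    have : c * d * (b * d) * (b * c) = 1 := by
      calc c * d * (b * d) * (b * c) = (b * b) * (c * c) * (d * d) := by
            simp only [mul_left_comm, mul_comm]
        _ = 1 := by rw [h.e2 b, h.e2 c, h.e2 d, mul_one, mul_one]
    rw [this, k.one h])
  exact ⟨χ, c1, c2, fun a b hab => c3 a b ((hβ _ _).1 hab)⟩

end

/-! ### products -/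

theorem nb_prod {S T : QData} (h : NB S) (h' : NB T) : NB (prod S T) := by
  have hn : ∀ a b : (prod S T).G, (prod S T).q a b = (prod S T).q 1 1 ↔
      S.q a.1 b.1 = S.q 1 1 ∧ T.q a.2 b.2 = T.q 1 1 := fun a b => Prod.ext_iff
  refine ⟨fun a => Prod.ext (h.e2 _) (h'.e2 _), fun a => (hn _ _).2 ⟨h.ng _, h'.ng _⟩,
    fun a b hab => ?_, fun a => (hn _ _).2 ⟨h.on _, h'.on _⟩, fun a b c hb hc => ?_⟩
  · obtain ⟨h1, h2⟩ := (hn _ _).1 hab
    exact (hn _ _).2 ⟨h.sy _ _ h1, h'.sy _ _ h2⟩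
  · obtain ⟨h1, h2⟩ := (hn _ _).1 hb
    obtain ⟨h3, h4⟩ := (hn _ _).1 hc
    exact (hn _ _).2 ⟨h.mu _ _ _ h1 h3, h'.mu _ _ _ h2 h4⟩

theorem extP_prod {S T : QData} (h : NB S) (h' : NB T) (e : ExtP S) (e' : ExtP T) :
    ExtP (prod S T) := by
  intro κ k
  have hP := nb_prod h h'
  have hn : ∀ a b : (prod S T).G, (prod S T).q a b = (prod S T).q 1 1 ↔
      S.q a.1 b.1 = S.q 1 1 ∧ T.q a.2 b.2 = T.q 1 1 := fun a b => Prod.ext_iff
  let κ' : S.G × T.G → S.G × T.G → ZMod 2 := κ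
  have n12 : ∀ (a : S.G) (b : T.G), (prod S T).q (a, 1) (1, b) = (prod S T).q 1 1 := fun a b =>
    (hn _ _).2 ⟨h.on a, h'.oneq b⟩
  have n21 : ∀ (a : S.G) (b : T.G), (prod S T).q (1, b) (a, 1) = (prod S T).q 1 1 := fun a b =>
    (hn _ _).2 ⟨h.oneq a, h'.on b⟩
  have n11 : ∀ (a b : S.G), S.q a b = S.q 1 1 → (prod S T).q (a, 1) (b, 1) = (prod S T).q 1 1 :=
    fun a b hab => (hn _ _).2 ⟨hab, h'.on 1⟩
  have n22 : ∀ (a b : T.G), T.q a b = T.q 1 1 → (prod S T).q (1, a) (1, b) = (prod S T).q 1 1 :=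
    fun a b hab => (hn _ _).2 ⟨h.on 1, hab⟩
  have mk : ∀ (a : S.G) (b : T.G), ((a, b) : S.G × T.G) = (a, 1) * (1, b) := fun a b => by
    rw [Prod.mk_mul_mk, mul_one, one_mul]
  -- `λ(a,b) = κ((a,1),(1,b))`
  let lam : S.G → T.G → ZMod 2 := fun a b => κ' (a, 1) (1, b)
  have lam1 : ∀ a b c, lam (a * b) c = lam a c + lam b c := by
    intro a b c
    have : ((a * b, 1) : S.G × T.G) = (a, 1) * (b, 1) := by rw [Prod.mk_mul_mk, mul_one]
    show κ' (a * b, 1) (1, c) = κ' (a, 1) (1, c) + κ' (b, 1) (1, c)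
    rw [this]
    exact k.l hP (n12 _ _) (n12 _ _)
  have lam2 : ∀ a b c, lam a (b * c) = lam a b + lam a c := by
    intro a b c
    have : ((1, b * c) : S.G × T.G) = (1, b) * (1, c) := by rw [Prod.mk_mul_mk, mul_one]
    show κ' (a, 1) (1, b * c) = κ' (a, 1) (1, b) + κ' (a, 1) (1, c)
    rw [this]
    exact k.m _ _ _ (n12 _ _) (n12 _ _)
  have lamn : lam S.neg T.neg = 0 := by
    have h1 : κ' (S.neg, 1) (((S.neg, T.neg) : S.G × T.G) * (S.neg, 1)) = 0 :=
      k.n ((S.neg, 1) : S.G × T.G)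
    rw [Prod.mk_mul_mk, h.e2, mul_one] at h1
    exact h1
  -- the restriction to the first factor
  let κ₁ : S.G → S.G → ZMod 2 := fun a b => κ' (a, 1) (b, 1) + lam a T.neg * lam b T.neg
  have k₁ : Adm S κ₁ := by
    refine ⟨fun a b hab => ?_, fun a b c hb hc => ?_, fun a => ?_⟩
    · show κ' (a, 1) (b, 1) + lam a T.neg * lam b T.neg =
        κ' (b, 1) (a, 1) + lam b T.neg * lam a T.neg
      rw [mul_comm (lam a T.neg)]
      exact congrArg (· + _) (k.s _ _ (n11 _ _ hab))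
    · show κ' (a, 1) (b * c, 1) + lam a T.neg * lam (b * c) T.neg =
        (κ' (a, 1) (b, 1) + lam a T.neg * lam b T.neg) +
        (κ' (a, 1) (c, 1) + lam a T.neg * lam c T.neg)
      have h1 : κ' (a, 1) (b * c, 1) = κ' (a, 1) (b, 1) + κ' (a, 1) (c, 1) := by
        have : ((b * c, 1) : S.G × T.G) = (b, 1) * (c, 1) := by rw [Prod.mk_mul_mk, mul_one]
        rw [this]
        exact k.m _ _ _ (n11 _ _ hb) (n11 _ _ hc)
      rw [h1, lam1]
      ring
    · show κ' (a, 1) (S.neg * a, 1) + lam a T.neg * lam (S.neg * a) T.neg = 0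
      have h1 : κ' (a, 1) (((S.neg, T.neg) : S.G × T.G) * (a, 1)) = 0 :=
        k.n ((a, 1) : S.G × T.G)
      have h2 : ((S.neg, T.neg) : S.G × T.G) * (a, 1) = (S.neg * a, 1) * (1, T.neg) := by
        rw [Prod.mk_mul_mk, Prod.mk_mul_mk, mul_one, mul_one, one_mul]
      have h6 : κ' (a, 1) ((S.neg * a, 1) * (1, T.neg)) =
          κ' (a, 1) (S.neg * a, 1) + κ' (a, 1) (1, T.neg) :=
        k.m _ _ _ (n11 _ _ (h.ng a)) (n12 _ _)
      rw [h2, h6] at h1
      have h3 : κ' (a, 1) (S.neg * a, 1) + lam a T.neg = 0 := h1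
      rw [lam1, lamn, zero_add]
      rcases z01 (lam a T.neg) with h4 | h4
      · rw [h4, add_zero] at h3
        rw [h4, h3]; rfl
      · rw [h4] at h3
        rw [h4, mul_one]; exact h3
  -- the restriction to the second factor
  let κ₂ : T.G → T.G → ZMod 2 := fun a b => κ' (1, a) (1, b) + lam S.neg a * lam S.neg b
  have k₂ : Adm T κ₂ := by
    refine ⟨fun a b hab => ?_, fun a b c hb hc => ?_, fun a => ?_⟩
    · show κ' (1, a) (1, b) + lam S.neg a * lam S.neg b =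
        κ' (1, b) (1, a) + lam S.neg b * lam S.neg a
      rw [mul_comm (lam S.neg a)]
      exact congrArg (· + _) (k.s _ _ (n22 _ _ hab))
    · show κ' (1, a) (1, b * c) + lam S.neg a * lam S.neg (b * c) =
        (κ' (1, a) (1, b) + lam S.neg a * lam S.neg b) +
        (κ' (1, a) (1, c) + lam S.neg a * lam S.neg c)
      have h1 : κ' (1, a) (1, b * c) = κ' (1, a) (1, b) + κ' (1, a) (1, c) := by
        have : ((1, b * c) : S.G × T.G) = (1, b) * (1, c) := by rw [Prod.mk_mul_mk, mul_one]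
        rw [this]
        exact k.m _ _ _ (n22 _ _ hb) (n22 _ _ hc)
      rw [h1, lam2]
      ring
    · show κ' (1, a) (1, T.neg * a) + lam S.neg a * lam S.neg (T.neg * a) = 0
      have h1 : κ' (1, a) (((S.neg, T.neg) : S.G × T.G) * (1, a)) = 0 :=
        k.n ((1, a) : S.G × T.G)
      have h2 : ((S.neg, T.neg) : S.G × T.G) * (1, a) = (1, T.neg * a) * (S.neg, 1) := by
        rw [Prod.mk_mul_mk, Prod.mk_mul_mk, mul_one, mul_one, one_mul]
      have h6 : κ' (1, a) ((1, T.neg * a) * (S.neg, 1)) =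
          κ' (1, a) (1, T.neg * a) + κ' (1, a) (S.neg, 1) :=
        k.m _ _ _ (n22 _ _ (h'.ng a)) (n21 _ _)
      rw [h2, h6] at h1
      have h5 : κ' (1, a) (S.neg, 1) = lam S.neg a := k.s _ _ (n21 _ _)
      have h3 : κ' (1, a) (1, T.neg * a) + lam S.neg a = 0 := by rw [← h5]; exact h1
      rw [lam2, lamn, zero_add]
      rcases z01 (lam S.neg a) with h4 | h4
      · rw [h4, add_zero] at h3
        rw [h4, h3]; rfl
      · rw [h4] at h3
        rw [h4, mul_one]; exact h3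
  obtain ⟨χ₁, a1, a2, a3⟩ := e κ₁ k₁
  obtain ⟨χ₂, b1, b2, b3⟩ := e' κ₂ k₂
  refine ⟨fun u v => (χ₁ u.1 v.1 + lam u.1 T.neg * lam v.1 T.neg) +
    (χ₂ u.2 v.2 + lam S.neg u.2 * lam S.neg v.2) + lam u.1 v.2 + lam v.1 u.2, ?_, ?_, ?_⟩
  · intro u v w
    show (χ₁ (u.1 * v.1) w.1 + lam (u.1 * v.1) T.neg * lam w.1 T.neg) +
      (χ₂ (u.2 * v.2) w.2 + lam S.neg (u.2 * v.2) * lam S.neg w.2) + lam (u.1 * v.1) w.2 +
      lam w.1 (u.2 * v.2) = _
    rw [a1, b1, lam1, lam1, lam2, lam2]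
    ring
  · intro u v w
    show (χ₁ u.1 (v.1 * w.1) + lam u.1 T.neg * lam (v.1 * w.1) T.neg) +
      (χ₂ u.2 (v.2 * w.2) + lam S.neg u.2 * lam S.neg (v.2 * w.2)) + lam u.1 (v.2 * w.2) +
      lam (v.1 * w.1) u.2 = _
    rw [a2, b2, lam1, lam1, lam2, lam2]
    ring
  · rintro ⟨u, u'⟩ ⟨v, v'⟩ huv
    obtain ⟨h1, h2⟩ := (hn _ _).1 huv
    show (χ₁ u v + lam u T.neg * lam v T.neg) + (χ₂ u' v' + lam S.neg u' * lam S.neg v') +
      lam u v' + lam v u' = κ' (u, u') (v, v')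
    rw [a3 u v h1, b3 u' v' h2]
    show (κ' (u, 1) (v, 1) + lam u T.neg * lam v T.neg + lam u T.neg * lam v T.neg) +
      (κ' (1, u') (1, v') + lam S.neg u' * lam S.neg v' + lam S.neg u' * lam S.neg v') +
      lam u v' + lam v u' = κ' (u, u') (v, v')
    have e1 : κ' (u, u') (v, v') = κ' (u, 1) (v, v') + κ' (1, u') (v, v') := by
      rw [mk u u']
      exact k.l hP ((hn _ _).2 ⟨h1, h'.oneq _⟩) ((hn _ _).2 ⟨h.oneq _, h2⟩)
    have e2 : κ' (u, 1) (v, v') = κ' (u, 1) (v, 1) + κ' (u, 1) (1, v') := by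
      rw [mk v v']
      exact k.m _ _ _ (n11 _ _ h1) (n12 _ _)
    have e3 : κ' (1, u') (v, v') = κ' (1, u') (v, 1) + κ' (1, u') (1, v') := by
      rw [mk v v']
      exact k.m _ _ _ (n21 _ _) (n22 _ _ h2)
    have e4 : κ' (1, u') (v, 1) = lam v u' := k.s _ _ (n21 _ _)
    rw [e1, e2, e3, e4]
    show _ = κ' (u, 1) (v, 1) + lam u v' + (lam v u' + κ' (1, u') (1, v'))
    have t1 := zadd (lam u T.neg * lam v T.neg)
    have t2 := zadd (lam S.neg u' * lam S.neg v')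
    linear_combination t1 + t2

/-! ### group extensions -/

theorem c2_cases (α : C2) : α = 1 ∨ α = gen := by
  revert α; decide

theorem c2_sq (α : C2) : α * α = 1 := by
  revert α; decide

section

variable {G : Type} [CommGroup G]

theorem pw_one (a : G) : pw a 1 = a ^ 0 := by simp [pw]

theorem pw_one' (a : G) : pw a 1 = 1 := if_pos rfl

theorem pw_gen (a : G) : pw a gen = a := if_neg (by decide)

theorem one_pw (α : C2) : pw (1 : G) α = 1 := by
  rcases c2_cases α with rfl | rfl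
  · exact pw_one' _
  · exact pw_gen _

theorem mul_pw (a b : G) (α : C2) : pw (a * b) α = pw a α * pw b α := by
  rcases c2_cases α with rfl | rfl
  · rw [pw_one', pw_one', pw_one', mul_one]
  · rw [pw_gen, pw_gen, pw_gen]

theorem pw_mul (h2 : ∀ a : G, a * a = 1) (a : G) (α β : C2) : pw a (α * β) = pw a α * pw a β := by
  rcases c2_cases α with rfl | rfl <;> rcases c2_cases β with rfl | rfl
  · rw [one_mul, pw_one', mul_one]
  · rw [one_mul, pw_one', one_mul]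
  · rw [mul_one, pw_one', mul_one]
  · rw [c2_sq, pw_one', pw_gen, h2]

end

theorem ext_null {S : QData} (u v : (ext S).G) : (ext S).q u v = (ext S).q 1 1 ↔
    S.q u.1 v.1 = S.q 1 1 ∧ pw (pw S.neg u.2) v.2 * pw u.1 v.2 * pw v.1 u.2 = 1 := by
  have h : pw (pw S.neg 1) 1 * pw (1 : S.G) 1 * pw (1 : S.G) 1 = 1 := by
    rw [pw_one', pw_one', mul_one, mul_one]
  have h' : (ext S).q u v = (ext S).q 1 1 ↔ S.q u.1 v.1 = S.q 1 1 ∧
      pw (pw S.neg u.2) v.2 * pw u.1 v.2 * pw v.1 u.2 =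
        pw (pw S.neg 1) 1 * pw (1 : S.G) 1 * pw (1 : S.G) 1 := Prod.ext_iff
  rw [h', h]

theorem nb_ext {S : QData} (h : NB S) : NB (ext S) := by
  refine ⟨fun a => Prod.ext (h.e2 _) (c2_sq _), ?_, ?_, ?_, ?_⟩
  · rintro ⟨a, α⟩
    refine (ext_null _ _).2 ⟨h.ng _, ?_⟩
    show pw (pw S.neg α) (1 * α) * pw a (1 * α) * pw (S.neg * a) α = 1
    rcases c2_cases α with rfl | rfl
    · rw [one_mul, pw_one', pw_one', pw_one', one_mul, one_mul]
    · rw [one_mul, pw_gen, pw_gen, pw_gen, pw_gen, h.e2]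
  · rintro ⟨a, α⟩ ⟨b, β⟩ hab
    obtain ⟨h1, h2⟩ := (ext_null _ _).1 hab
    refine (ext_null _ _).2 ⟨h.sy _ _ h1, ?_⟩
    show pw (pw S.neg β) α * pw b α * pw a β = 1
    have h3 : pw (pw S.neg α) β * pw a β * pw b α = 1 := h2
    have h4 : pw (pw S.neg β) α = pw (pw S.neg α) β := by
      rcases c2_cases α with rfl | rfl <;> rcases c2_cases β with rfl | rfl
      · rfl
      · rw [pw_one', pw_one', pw_gen]
      · rw [pw_one', pw_one', pw_gen]
      · rfl
    rw [h4, mul_right_comm]; exact h3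
  · rintro ⟨a, α⟩
    refine (ext_null _ _).2 ⟨h.on _, ?_⟩
    show pw (pw S.neg α) 1 * pw a 1 * pw 1 α = 1
    rw [pw_one', pw_one', one_pw, one_mul, one_mul]
  · rintro ⟨a, α⟩ ⟨b, β⟩ ⟨c, γ⟩ hb hc
    obtain ⟨h1, h2⟩ := (ext_null _ _).1 hb
    obtain ⟨h3, h4⟩ := (ext_null _ _).1 hc
    refine (ext_null _ _).2 ⟨h.mu _ _ _ h1 h3, ?_⟩
    have h5 : pw (pw S.neg α) β * pw a β * pw b α = 1 := h2
    have h6 : pw (pw S.neg α) γ * pw a γ * pw c α = 1 := h4
    show pw (pw S.neg α) (β * γ) * pw a (β * γ) * pw (b * c) α = 1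
    rw [pw_mul h.e2, pw_mul h.e2, mul_pw]
    calc pw (pw S.neg α) β * pw (pw S.neg α) γ * (pw a β * pw a γ) * (pw b α * pw c α) =
        (pw (pw S.neg α) β * pw a β * pw b α) * (pw (pw S.neg α) γ * pw a γ * pw c α) := by
          simp only [mul_assoc, mul_left_comm, mul_comm]
      _ = 1 := by rw [h5, h6, mul_one]

theorem extP_ext {S : QData} (h : NB S) (e : ExtP S) : ExtP (ext S) := by
  intro κ k
  have hE := nb_ext h
  let κ' : S.G × C2 → S.G × C2 → ZMod 2 := κ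
  have n11 : ∀ (a b : S.G), S.q a b = S.q 1 1 → (ext S).q (a, 1) (b, 1) = (ext S).q 1 1 :=
    fun a b hab => (ext_null _ _).2 ⟨hab, by
      show pw (pw S.neg 1) 1 * pw a 1 * pw b 1 = 1
      rw [pw_one', pw_one', pw_one', mul_one, mul_one]⟩
  let κ₀ : S.G → S.G → ZMod 2 := fun a b => κ' (a, 1) (b, 1)
  have k₀ : Adm S κ₀ := by
    refine ⟨fun a b hab => k.s _ _ (n11 _ _ hab), fun a b c hb hc => ?_, fun a => ?_⟩
    · have h6 : κ' (a, 1) ((b, 1) * (c, 1)) = κ' (a, 1) (b, 1) + κ' (a, 1) (c, 1) :=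
        k.m _ _ _ (n11 _ _ hb) (n11 _ _ hc)
      rw [Prod.mk_mul_mk, mul_one] at h6
      exact h6
    · have h1 : κ' (a, 1) (((S.neg, 1) : S.G × C2) * (a, 1)) = 0 :=
        k.n ((a, 1) : S.G × C2)
      rw [Prod.mk_mul_mk, mul_one] at h1
      exact h1
  obtain ⟨χ, c1, c2, c3⟩ := e κ₀ k₀
  have χ1 : ∀ a, χ a 1 = 0 := fun a => by
    have := c2 a 1 1
    rw [mul_one] at this
    simpa using this
  have χ1' : ∀ a, χ 1 a = 0 := fun a => by
    have := c1 1 1 a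
    rw [mul_one] at this
    simpa using this
  refine ⟨fun u v => χ u.1 v.1, fun a b c => c1 _ _ _, fun a b c => c2 _ _ _, ?_⟩
  rintro ⟨a, α⟩ ⟨b, β⟩ hab
  obtain ⟨h1, h2⟩ := (ext_null _ _).1 hab
  have h3 : pw (pw S.neg α) β * pw a β * pw b α = 1 := h2
  show χ a b = κ' (a, α) (b, β)
  rcases c2_cases α with rfl | rfl <;> rcases c2_cases β with rfl | rfl
  · exact c3 _ _ h1
  · rw [pw_one', pw_gen, pw_gen, pw_one', one_mul, mul_one] at h3
    have h4 : a = 1 := h3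
    rw [h4, χ1']
    exact (k.one' hE _).symm
  · rw [pw_gen, pw_one', pw_one', pw_gen, one_mul, one_mul] at h3
    have h4 : b = 1 := h3
    rw [h4, χ1]
    exact (k.one hE _).symm
  · rw [pw_gen, pw_gen, pw_gen, pw_gen] at h3
    have h4 : b = S.neg * a := by
      have h5 := congrArg (fun z => S.neg * a * z) h3
      simp only [mul_one] at h5
      rw [← mul_assoc, h.e2, one_mul] at h5
      exact h5
    have h6 : κ' (a, gen) (((S.neg, 1) : S.G × C2) * (a, gen)) = 0 :=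
      k.n ((a, gen) : S.G × C2)
    rw [Prod.mk_mul_mk, one_mul] at h6
    rw [h4, h6, c3 _ _ (h.ng a)]
    exact k₀.n a

/-! ### isomorphic structures -/

theorem nb_iso {S T : QData} (i : Iso S T) (h : NB S) : NB T := by
  obtain ⟨φ, hφ, hq⟩ := i
  have hn : ∀ a b : T.G, T.q a b = T.q 1 1 ↔ S.q (φ.symm a) (φ.symm b) = S.q 1 1 := by
    intro a b
    rw [hq, φ.apply_symm_apply, φ.apply_symm_apply, map_one]
  have hn' : φ.symm T.neg = S.neg := by rw [← hφ, φ.symm_apply_apply]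
  refine ⟨fun a => ?_, fun a => ?_, fun a b hab => ?_, fun a => ?_, fun a b c hb hc => ?_⟩
  · apply φ.symm.injective
    rw [map_mul, map_one, h.e2]
  · rw [hn, map_mul, hn']; exact h.ng _
  · rw [hn] at hab ⊢; exact h.sy _ _ hab
  · rw [hn, map_one]; exact h.on _
  · rw [hn] at hb hc ⊢
    rw [map_mul]; exact h.mu _ _ _ hb hc

theorem extP_iso {S T : QData} (i : Iso S T) (e : ExtP S) : ExtP T := by
  obtain ⟨φ, hφ, hq⟩ := i
  have hn : ∀ a b : S.G, T.q (φ a) (φ b) = T.q 1 1 ↔ S.q a b = S.q 1 1 := by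
    intro a b
    rw [hq, map_one]
  have hn' : φ.symm T.neg = S.neg := by rw [← hφ, φ.symm_apply_apply]
  intro κ k
  obtain ⟨χ, c1, c2, c3⟩ := e (fun a b => κ (φ a) (φ b)) ⟨fun a b hab => k.s _ _ ((hn _ _).2 hab),
    fun a b c hb hc => by
      show κ (φ a) (φ (b * c)) = _
      rw [map_mul]; exact k.m _ _ _ ((hn _ _).2 hb) ((hn _ _).2 hc), fun a => by
      show κ (φ a) (φ (S.neg * a)) = _
      rw [map_mul, hφ]; exact k.n _⟩
  refine ⟨fun a b => χ (φ.symm a) (φ.symm b), fun a b c => ?_, fun a b c => ?_, fun a b hab => ?_⟩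
  · show χ (φ.symm (a * b)) _ = _
    rw [map_mul]; exact c1 _ _ _
  · show χ _ (φ.symm (b * c)) = _
    rw [map_mul]; exact c2 _ _ _
  · have h1 := (hn (φ.symm a) (φ.symm b)).1 (by
      rw [φ.apply_symm_apply, φ.apply_symm_apply]; exact hab)
    have h2 := c3 _ _ h1
    rw [φ.apply_symm_apply, φ.apply_symm_apply] at h2
    exact h2

/-! ### the smallest structures -/

theorem nb_triv {T : QData} (h2 : ∀ a : T.G, a * a = 1) (h0 : ∀ a b, T.q a b = T.q 1 1) : NB T :=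
  ⟨h2, fun _ => h0 _ _, fun _ _ _ => h0 _ _, fun _ => h0 _ _, fun _ _ _ _ _ => h0 _ _⟩

/-- the form of `L1` -/
def b1 (a b : C2) : ZMod 2 := if a = gen ∧ b = gen then 1 else 0

theorem nb_l1 : NB L1 := by
  refine ⟨c2_sq, ?_, ?_, ?_, ?_⟩
  · show ∀ a : C2, decide (a = gen ∧ gen * a = gen) = decide ((1 : C2) = gen ∧ (1 : C2) = gen)
    decide
  · show ∀ a b : C2, decide (a = gen ∧ b = gen) = decide ((1 : C2) = gen ∧ (1 : C2) = gen) →
      decide (b = gen ∧ a = gen) = decide ((1 : C2) = gen ∧ (1 : C2) = gen)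
    decide
  · show ∀ a : C2, decide (a = gen ∧ 1 = gen) = decide ((1 : C2) = gen ∧ (1 : C2) = gen)
    decide
  · show ∀ a b c : C2, decide (a = gen ∧ b = gen) = decide ((1 : C2) = gen ∧ (1 : C2) = gen) →
      decide (a = gen ∧ c = gen) = decide ((1 : C2) = gen ∧ (1 : C2) = gen) →
      decide (a = gen ∧ b * c = gen) = decide ((1 : C2) = gen ∧ (1 : C2) = gen)
    decide

theorem extP_l1 : ExtP L1 := by
  refine extP_form nb_l1 (β := b1) ?_ ?_ ?_
  · show ∀ a b : C2, b1 a b = b1 b a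
    decide
  · show ∀ a b c : C2, b1 a (b * c) = b1 a b + b1 a c
    decide
  · show ∀ a b : C2, decide (a = gen ∧ b = gen) = decide ((1 : C2) = gen ∧ (1 : C2) = gen) ↔
      b1 a b = 0
    decide

/-- structures with exactly two quaternions -/
theorem extP_two {T : QData} (h : IsQuat T) (h2 : {t : T.Q | ∃ a b : T.G, T.q a b = t}.ncard = 2) :
    ExtP T := by
  classical
  have h0 : T.zero ∈ {t : T.Q | ∃ a b : T.G, T.q a b = t} := ⟨1, 1, q11 h⟩
  obtain ⟨x, y, hxy, he⟩ := Set.ncard_eq_two.1 h2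
  have hv : ∀ a b c d : T.G, T.q a b ≠ T.zero → T.q c d ≠ T.zero → T.q a b = T.q c d := by
    intro a b c d h1 h3
    have e1 : T.q a b ∈ ({x, y} : Set T.Q) := by rw [← he]; exact ⟨_, _, rfl⟩
    have e2 : T.q c d ∈ ({x, y} : Set T.Q) := by rw [← he]; exact ⟨_, _, rfl⟩
    rw [he] at h0
    rcases h0 with h0 | h0 <;> rcases e1 with e1 | e1 <;> rcases e2 with e2 | e2
    all_goals first
      | exact e1.trans e2.symm
      | exact absurd (e1.trans h0.symm) h1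
      | exact absurd (e2.trans h0.symm) h3
  refine extP_form (NB.of_quat h) (β := fun a b => if T.q a b = T.zero then 0 else 1) ?_ ?_ ?_
  · intro a b
    show (if T.q a b = T.zero then (0 : ZMod 2) else 1) = if T.q b a = T.zero then 0 else 1
    rw [h.qs2]
  · intro a b c
    show (if T.q a (b * c) = T.zero then (0 : ZMod 2) else 1) = (if T.q a b = T.zero then 0 else 1)
      + if T.q a c = T.zero then 0 else 1
    have hbc : T.q a (b * c) = T.zero ↔ T.q a b = T.q a c := (h.qs3 _ _ _).symm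
    by_cases h1 : T.q a b = T.zero <;> by_cases h3 : T.q a c = T.zero
    · rw [if_pos h1, if_pos h3, if_pos (hbc.2 (h1.trans h3.symm)), add_zero]
    · rw [if_pos h1, if_neg h3, if_neg (fun h4 => h3 ((hbc.1 h4).symm.trans h1)), zero_add]
    · rw [if_neg h1, if_pos h3, if_neg (fun h4 => h1 ((hbc.1 h4).trans h3)), add_zero]
    · rw [if_neg h1, if_neg h3, if_pos (hbc.2 (hv _ _ _ _ h1 h3))]; decide
  · intro a b
    show T.q a b = T.q 1 1 ↔ (if T.q a b = T.zero then (0 : ZMod 2) else 1) = 0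
    rw [q11 h]
    by_cases h1 : T.q a b = T.zero
    · rw [if_pos h1]; exact ⟨fun _ => rfl, fun _ => h1⟩
    · rw [if_neg h1]; exact ⟨fun h4 => absurd h4 h1, fun h4 => absurd h4 (by decide)⟩

/-- **in structures of elementary type, `κ` extends** -/
theorem extP_elem {T : QData} (h : Elem T) : NB T ∧ ExtP T := by
  induction h with
  | l0 => exact ⟨nb_triv (fun _ => rfl) fun _ _ => rfl,
      extP_triv (nb_triv (fun _ => rfl) fun _ _ => rfl) fun _ _ => rfl⟩
  | l10 => exact ⟨nb_triv c2_sq fun _ _ => rfl,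
      extP_triv (nb_triv c2_sq fun _ _ => rfl) fun _ _ => rfl⟩
  | l11 => exact ⟨nb_triv c2_sq fun _ _ => rfl,
      extP_triv (nb_triv c2_sq fun _ _ => rfl) fun _ _ => rfl⟩
  | l1 => exact ⟨nb_l1, extP_l1⟩
  | loc S hS => exact ⟨NB.of_quat hS.1, extP_two hS.1 hS.2.2.2.2⟩
  | prod S T _ _ h1 h2 => exact ⟨nb_prod h1.1 h2.1, extP_prod h1.1 h2.1 h1.2 h2.2⟩
  | ext S _ h1 => exact ⟨nb_ext h1.1, extP_ext h1.1 h1.2⟩
  | iso S T _ i h1 => exact ⟨nb_iso i h1.1, extP_iso i h1.2⟩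

end Pool.Agent.Helper94.ETC
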