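import Mathlib
import Pool.Graph.R_seed8.H315R3.ETC.Defs

set_option autoImplicit false

/-! # The quotient of a quaternionic structure by the quaternions with slot `u` -/

namespace Pool.Agent.Helper94.ETC

open Pool.Agent.H315R3.ETC

/-- `q(a,b)` is one of the quaternions `q(u, ·)` -/
def NU (S : QData) (u a b : S.G) : Prop := ∃ y, S.q a b = S.q u y

/-- `q(a,b)` and `q(c,d)` are linked modulo the quaternions `q(u, ·)`: there is `x` such that
`q(a,bx)`, `q(c,dx)` and `q(ac,x)` are quaternions `q(u, ·)` -/
def Rel (S : QData) (u a b c d : S.G) : Prop :=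
  ∃ x, NU S u a (b * x) ∧ NU S u c (d * x) ∧ NU S u (a * c) x

/-- the quotient `S/u` of `S` by the quaternions `q(u, ·)`: the same group, the same `-1`, and
`q_u(a,b)` is the set of all pairs `(c,d)` such that `q(a,b)` and `q(c,d)` are linked modulo the
quaternions `q(u, ·)` -/
def quo (S : QData) (u : S.G) : QData :=
  ⟨S.G, Set (S.G × S.G), S.neg, fun a b => {p | Rel S u a b p.1 p.2},
    {p | Rel S u 1 1 p.1 p.2}⟩

/-- `T` is an iterated quotient of `S`, that is `T = (...((S/u₁)/u₂).../uₙ)` for some
elements `u₁, ..., uₙ` of the group, `n ≥ 0` -/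
inductive Iter (S : QData) : QData → Prop
  | refl : Iter S S
  | step (T : QData) (u : T.G) : Iter S T → Iter S (quo T u)

end Pool.Agent.Helper94.ETC
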