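import Pool.Agent.Helper94.ETC.Add
import Pool.Agent.Helper94.ETC.ExtElem
import Pool.Agent.Helper94.ETC.QuoDefs
import Pool.Graph.R_pool_sql_team_seeded_620a6dc7.HP953.EH.Over

set_option autoImplicit false

/-! # Quotients and additivity -/

namespace Pool.Agent.Helper94.ETC

open Pool.Agent.H315R3.ETC
open Pool.Agent.HP953.EH (AddQuat Sym sym_eq modU)

section basic

variable {S : QData} (hS : IsQuat S)
include hS

theorem nu_of_zero {u a b : S.G} (h : S.q a b = S.zero) : NU S u a b :=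
  ⟨1, by rw [h, q_one hS]⟩

theorem nu_one (u a : S.G) : NU S u a 1 := nu_of_zero hS (q_one hS a)

theorem one_nu (u a : S.G) : NU S u 1 a := nu_of_zero hS (one_q hS a)

theorem nu_symm {u a b : S.G} (h : NU S u a b) : NU S u b a := by
  obtain ⟨y, hy⟩ := h
  exact ⟨y, by rw [hS.qs2, hy]⟩

theorem nu_mul {u a b c : S.G} (hb : NU S u a b) (hc : NU S u a c) : NU S u a (b * c) := by
  obtain ⟨y, hy⟩ := hb
  obtain ⟨z, hz⟩ := hc
  exact ⟨y * z, sum_indep hS hy hz⟩

theorem mul_nu {u a b c : S.G} (ha : NU S u a c) (hb : NU S u b c) : NU S u (a * b) c :=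
  nu_symm hS (nu_mul hS (nu_symm hS ha) (nu_symm hS hb))

theorem rel_one {u a b : S.G} : Rel S u a b 1 1 ↔ NU S u a b := by
  constructor
  · rintro ⟨x, h1, -, h3⟩
    rw [mul_one] at h3
    have := nu_mul hS h1 h3
    rwa [mul_assoc, hS.exp2, mul_one] at this
  · intro h
    exact ⟨1, by rwa [mul_one], one_nu hS _ _, nu_one hS _ _⟩

theorem rel_of_nu {u a b c d : S.G} (h : NU S u a b) : Rel S u a b c d ↔ NU S u c d := by
  constructor
  · rintro ⟨x, h1, h2, h3⟩
    have h4 : NU S u a x := by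
      have := nu_mul hS h h1
      rwa [sq' hS] at this
    have h5 : NU S u c x := by
      have := mul_nu hS h4 h3
      rwa [sq' hS] at this
    have := nu_mul hS h2 h5
    rwa [mul_assoc, hS.exp2, mul_one] at this
  · intro h'
    exact ⟨1, by rwa [mul_one], by rwa [mul_one], nu_one hS _ _⟩

theorem quo_null {u a b : S.G} : (quo S u).q a b = (quo S u).zero ↔ NU S u a b := by
  have e : (quo S u).q a b = (quo S u).zero ↔
    ({p | Rel S u a b p.1 p.2} : Set (S.G × S.G)) = {p | Rel S u 1 1 p.1 p.2} := Iff.rfl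
  rw [e]
  constructor
  · intro h
    have h1 : ((1, 1) : S.G × S.G) ∈ ({p | Rel S u 1 1 p.1 p.2} : Set (S.G × S.G)) :=
      (rel_one hS).2 (nu_one hS u 1)
    rw [← h] at h1
    exact (rel_one hS).1 h1
  · intro h
    ext p
    show Rel S u a b p.1 p.2 ↔ Rel S u 1 1 p.1 p.2
    rw [rel_of_nu hS h, rel_of_nu hS (nu_one hS u 1)]

theorem rel_self (u a b : S.G) : Rel S u a b a b :=
  ⟨b, by rw [hS.exp2]; exact nu_one hS _ _, by rw [hS.exp2]; exact nu_one hS _ _,
    by rw [hS.exp2]; exact one_nu hS _ _⟩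

theorem rel_of_quo {u a b c d : S.G} (h : (quo S u).q a b = (quo S u).q c d) :
    Rel S u a b c d := by
  have h1 : ((c, d) : S.G × S.G) ∈ ({p | Rel S u c d p.1 p.2} : Set (S.G × S.G)) :=
    rel_self hS u c d
  have h2 : ({p | Rel S u a b p.1 p.2} : Set (S.G × S.G)) = {p | Rel S u c d p.1 p.2} := h
  rw [← h2] at h1
  exact h1

end basic

/-- in a structure with additive quaternions the symbols separate the quaternions -/
theorem sep_of_add {T : QData} (hT : IsQuat T) (hA : AddQuat T) {a b c d : T.G}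
    (h : ∀ χ, Sym T χ → χ a b = χ c d) : T.q a b = T.q c d := by
  obtain ⟨B, _, β, hB, hm, hq⟩ := hA
  have hs : ∀ u v, β u v = β v u := fun u v => (hq _ _ _ _).2 (hT.qs2 u v)
  by_contra hne
  have h1 : β a b + β c d ≠ 0 := by
    intro h2
    apply hne
    rw [← hq]
    have h3 : β a b + β c d + β c d = β c d := by rw [h2, zero_add]
    rwa [add_assoc, hB, add_zero] at h3
  obtain ⟨l, hl⟩ := Pool.Agent.HP953.EH.sep hB _ h1
  apply hl
  have h2 := h (fun u v => l (β u v)) ⟨fun u v w => by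
    show l (β (u * v) w) = l (β u w) + l (β v w)
    rw [hs, hm, hs w u, hs w v, map_add], fun u v w => by
    show l (β u (v * w)) = l (β u v) + l (β u w)
    rw [hm, map_add], fun u v huv => by
    show l (β u v) = 0
    rw [(Pool.Agent.HP953.EH.beta_zero hT hm hq u v).2 huv, map_zero]⟩
  rw [map_add]
  have h3 : l (β a b) = l (β c d) := h2
  rw [h3]
  exact zadd _

/-- **if one quotient is quaternionic and of elementary type, the quaternions are additive** -/
theorem add_of_quo {S : QData} (hS : IsQuat S) (u : S.G) (hQ : IsQuat (quo S u))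
    (hE : Elem (quo S u)) : AddQuat S := by
  classical
  have hA : AddQuat (quo S u) := (Pool.Agent.HP953.EH.good_of_elem hE).2
  have hex := (extP_elem hE).2
  have hn : ∀ a b : S.G, (quo S u).q a b = (quo S u).q 1 1 ↔ NU S u a b := by
    intro a b
    rw [q11 hQ]
    exact quo_null hS
  -- symbols with given row at `u`
  have hext : ∀ f : S.G → ZMod 2, (∀ x y, f (x * y) = f x + f y) →
      (∀ x, S.q u x = S.zero → f x = 0) → ∃ χ, Sym S χ ∧ ∀ y, χ u y = f y := by
    intro f hf hf0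
    have f1 : f 1 = 0 := hf0 1 (q_one hS u)
    have fwd : ∀ y y', S.q u y = S.q u y' → f y = f y' := by
      intro y y' h
      apply zeq
      rw [← hf]
      exact hf0 _ (of_eq_r hS h)
    let κ : S.G → S.G → ZMod 2 := fun b x => if h : NU S u b x then f h.choose else 0
    have κe : ∀ b x y, S.q b x = S.q u y → κ b x = f y := by
      intro b x y h
      have hex : NU S u b x := ⟨y, h⟩
      have e : κ b x = f hex.choose := dif_pos hex
      rw [e]
      exact fwd _ _ (hex.choose_spec.symm.trans h)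
    have k : Adm (quo S u) κ := by
      refine ⟨fun (a : S.G) (b : S.G) hab => ?_, fun (a : S.G) (b : S.G) (c : S.G) hb hc => ?_,
        fun (a : S.G) => ?_⟩
      · obtain ⟨y, hy⟩ := (hn a b).1 hab
        rw [κe a b y hy, κe b a y ((hS.qs2 b a).trans hy)]
      · obtain ⟨y, hy⟩ := (hn a b).1 hb
        obtain ⟨z, hz⟩ := (hn a c).1 hc
        rw [κe a b y hy, κe a c z hz, ← hf]
        exact κe a (b * c) (y * z) (sum_indep hS hy hz)
      · have h1 : κ a (S.neg * a) = f 1 := κe _ _ _ (by rw [hS.qs1, q_one hS])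
        show κ a (S.neg * a) = 0
        rw [h1, f1]
    obtain ⟨χ, c1, c2, c3⟩ := hex κ k
    refine ⟨χ, ⟨c1, c2, fun a b hab => ?_⟩, fun y => ?_⟩
    · rw [c3 a b ((hn a b).2 (nu_of_zero hS hab)), κe a b 1 (by rw [hab, q_one hS]), f1]
    · rw [c3 u y ((hn u y).2 ⟨y, rfl⟩), κe u y y rfl]
  -- detection in `Q_u`
  have hdet : ∀ y, (∀ χ, Sym S χ → χ u y = 0) → S.q u y = S.zero := by
    intro y hy
    by_contra hne
    let H : Subgroup S.G :=
      { carrier := {x | S.q u x = S.zero}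
        one_mem' := q_one hS _
        mul_mem' := fun h h' => mul_right hS h h'
        inv_mem' := fun {x} hx => by
          have : x⁻¹ = x := inv_eq_of_mul_eq_one_left (hS.exp2 x)
          rwa [this] }
    obtain ⟨f, f1, f2, f3⟩ := exists_hom hS.exp2 H (g := y) hne
    obtain ⟨χ, h1, h2⟩ := hext f f1 (fun x hx => f2 x hx)
    have := hy χ h1
    rw [h2, f3] at this
    exact absurd this (by decide)
  apply add_of_sep hS
  intro a b c d h
  have hT : (quo S u).q a b = (quo S u).q c d := by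
    refine sep_of_add hQ hA fun χ hχ => h χ ⟨hχ.1, hχ.2.1, fun x y hxy => hχ.2.2 x y ?_⟩
    exact (quo_null hS).2 (nu_of_zero hS hxy)
  obtain ⟨w, ⟨y₁, e₁⟩, ⟨y₂, e₂⟩, ⟨y₃, e₃⟩⟩ := rel_of_quo hS hT
  have hz : S.q u (y₁ * y₂ * y₃) = S.zero := by
    apply hdet
    intro χ hχ
    rw [hχ.2.1, hχ.2.1, ← sym_eq hS hχ e₁, ← sym_eq hS hχ e₂, ← sym_eq hS hχ e₃, hχ.2.1, hχ.2.1,
      hχ.1, h χ hχ]
    have t1 := zadd (χ c d)
    have t2 := zadd (χ a w)
    have t3 := zadd (χ c w)
    linear_combination t1 + t2 + t3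
  obtain ⟨g, g1, g2, g3⟩ := triple hS e₁ e₂ e₃ hz
  have k1 : S.q a (b * (w * g)) = S.zero := by rw [← mul_assoc]; exact of_eq_r hS g1
  have k2 : S.q c (d * (w * g)) = S.zero := by rw [← mul_assoc]; exact of_eq_r hS g2
  have k3 : S.q (a * c) (w * g) = S.zero := of_eq_r hS g3
  rw [eq_r hS k1, eq_r hS k2]
  exact eq_l hS k3

/-- the symbols of the quotient -/
theorem sym_quo {S : QData} (hS : IsQuat S) {u : S.G} {χ : S.G → S.G → ZMod 2} :
    Sym (quo S u) χ ↔ Sym S χ ∧ ∀ x, χ u x = 0 := by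
  constructor
  · intro hχ
    exact ⟨⟨hχ.1, hχ.2.1, fun x y hxy => hχ.2.2 x y ((quo_null hS).2 (nu_of_zero hS hxy))⟩,
      fun x => hχ.2.2 u x ((quo_null hS).2 ⟨x, rfl⟩)⟩
  · rintro ⟨h1, h2⟩
    refine ⟨h1.1, h1.2.1, fun x y hxy => ?_⟩
    obtain ⟨z, hz⟩ := (quo_null hS).1 hxy
    rw [sym_eq hS h1 hz, h2]

/-- **if all proper quotients are quaternionic and of elementary type, so is the structure** -/
theorem elem_of_quo {S : QData} (hS : IsQuat S) (hfin : Finite S.G)
    (h : ∀ u : S.G, (∃ y, S.q u y ≠ S.zero) → IsQuat (quo S u) ∧ Elem (quo S u)) : Elem S := by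
  classical
  -- additivity
  have hA : AddQuat S := by
    by_cases h0 : ∀ a b, S.q a b = S.zero
    · apply add_of_sep hS
      intro a b c d _
      rw [h0, h0]
    · push Not at h0
      obtain ⟨u, y, hy⟩ := h0
      obtain ⟨h1, h2⟩ := h u ⟨y, hy⟩
      exact add_of_quo hS u h1 h2
  refine Pool.Agent.HP953.EH.elem_of_over S hS hfin
    (Pool.Agent.HP953.EH.products_four_of_pair hS hfin (Pool.Agent.HP953.EH.pair_of_add hS hA)) ?_
  intro U
  by_cases hU : ∃ u ∈ U, ∃ y, S.q u y ≠ S.zero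
  · obtain ⟨u, huU, hu⟩ := hU
    obtain ⟨h1, h2⟩ := h u hu
    refine Pool.Agent.HP953.EH.isQuat_fam (G := S.G) S.neg
      (fun χ => Sym (quo S u) χ ∧ ∀ v ∈ U, ∀ x, χ v x = 0)
      (fun χ => Sym S χ ∧ ∀ v ∈ U, ∀ x, χ v x = 0) ?_
      (Pool.Agent.HP953.EH.over_of_elem (quo S u) h1 hfin h2 U)
    intro χ
    constructor
    · rintro ⟨h3, h4⟩
      exact ⟨((sym_quo hS).1 h3).1, h4⟩
    · rintro ⟨h3, h4⟩
      exact ⟨(sym_quo hS).2 ⟨h3, h4 u huU⟩, h4⟩
  · push Not at hU
    -- all symbols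
    have hall : ∀ χ, Sym S χ → ∀ u ∈ U, ∀ x, χ u x = 0 := fun χ hχ u hu x => hχ.2.2 u x (hU u hu x)
    have heq : ∀ a b c d : S.G, (modU S U).q a b = (modU S U).q c d ↔ S.q a b = S.q c d := by
      intro a b c d
      constructor
      · intro h1
        refine sep_of_add hS hA fun χ hχ => ?_
        exact congrFun h1 ⟨χ, hχ, hall χ hχ⟩
      · intro h1
        funext χ
        exact sym_eq hS χ.2.1 h1
    have heq0 : ∀ a b : S.G, (modU S U).q a b = (modU S U).zero ↔ S.q a b = S.zero := by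
      intro a b
      have e1 : (modU S U).q 1 1 = (modU S U).zero := by
        funext χ
        exact χ.2.1.2.2 1 1 (q_one hS 1)
      have e2 := heq a b 1 1
      rw [q_one hS 1] at e2
      exact ⟨fun h => e2.1 (h.trans e1.symm), fun h => (e2.2 h).trans e1⟩
    refine ⟨hS.exp2, fun a => (heq0 _ _).2 (hS.qs1 a), fun a b => (heq _ _ _ _).2 (hS.qs2 a b),
      fun a b c => ?_, fun a b c d h1 => ?_⟩
    · exact (heq _ _ _ _).trans ((hS.qs3 _ _ _).trans (heq0 _ _).symm)
    · obtain ⟨x, h2, h3⟩ := hS.qs4 _ _ _ _ ((heq _ _ _ _).1 h1)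
      exact ⟨x, (heq _ _ _ _).2 h2, (heq _ _ _ _).2 h3⟩

/-- **the quotients of structures of elementary type** -/
theorem quo_of_elem {S : QData} (hS : IsQuat S) (hfin : Finite S.G) (hE : Elem S) (u : S.G) :
    IsQuat (quo S u) ∧ Elem (quo S u) := by
  classical
  have hA : AddQuat S := (Pool.Agent.HP953.EH.good_of_elem hE).2
  have hM := Pool.Agent.HP953.EH.over_of_elem S hS hfin hE (Subgroup.zpowers u)
  have hME := Pool.Agent.HP953.EH.elem_modU S hS hfin hE (Subgroup.zpowers u)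
  set M := modU S (Subgroup.zpowers u) with hMdef
  -- the zeros
  have hker : ∀ χ, Sym S χ → (∀ x, χ u x = 0) → ∀ v ∈ Subgroup.zpowers u, ∀ x, χ v x = 0 := by
    intro χ hχ h0 v hv x
    obtain ⟨n, rfl⟩ := Subgroup.mem_zpowers_iff.1 hv
    rcases Int.even_or_odd' n with ⟨k, rfl | rfl⟩
    · rw [zpow_mul, zpow_two, hS.exp2, one_zpow]
      exact hχ.2.2 1 x (one_q hS x)
    · rw [zpow_add, zpow_mul, zpow_two, hS.exp2, one_zpow, one_mul, zpow_one]
      exact h0 x
  have hz : ∀ a b : S.G, M.q a b = M.zero ↔ NU S u a b := by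
    intro a b
    constructor
    · intro h
      obtain ⟨B, _, β, hB, hm, hq⟩ := hA
      have hs : ∀ u v, β u v = β v u := fun u v => (hq _ _ _ _).2 (hS.qs2 u v)
      let Bu : AddSubgroup B :=
        { carrier := {t | ∃ y, β u y = t}
          add_mem' := by
            rintro _ _ ⟨y, rfl⟩ ⟨z, rfl⟩
            exact ⟨y * z, hm _ _ _⟩
          zero_mem' := ⟨1, Pool.Agent.HP953.EH.beta_one hm u⟩
          neg_mem' := by
            rintro _ ⟨y, rfl⟩
            exact ⟨y, (neg_eq_of_add_eq_zero_left (hB _)).symm⟩ }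
      by_contra hne
      have hnot : β a b ∉ Bu := by
        rintro ⟨y, hy⟩
        exact hne ⟨y, (hq _ _ _ _).1 hy.symm⟩
      let _ : Module (ZMod 2) B := AddCommGroup.zmodModule (n := 2) (fun b => by rw [two_nsmul, hB])
      let K : Submodule (ZMod 2) B := AddSubgroup.toZModSubmodule 2 Bu
      have hK : β a b ∉ K := hnot
      obtain ⟨f, hf1, hf2⟩ := Submodule.exists_le_ker_of_notMem hK
      apply hf1
      have hsym : Sym S (fun u v => f (β u v)) := ⟨fun u v w => by
        show f (β (u * v) w) = f (β u w) + f (β v w)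
        rw [hs, hm, hs w u, hs w v, map_add], fun u v w => by
        show f (β u (v * w)) = f (β u v) + f (β u w)
        rw [hm, map_add], fun u v huv => by
        show f (β u v) = 0
        rw [(Pool.Agent.HP953.EH.beta_zero hS hm hq u v).2 huv, map_zero]⟩
      have h0 : ∀ x, (fun u v => f (β u v)) u x = 0 := fun x => hf2 (show β u x ∈ K from ⟨x, rfl⟩)
      exact congrFun h ⟨_, hsym, hker _ hsym h0⟩
    · rintro ⟨y, hy⟩
      show (fun (χ : {χ : S.G → S.G → ZMod 2 // Sym S χ ∧ ∀ v ∈ Subgroup.zpowers u, ∀ x,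
        χ v x = 0}) => χ.1 a b) = fun _ => 0
      funext χ
      rw [sym_eq hS χ.2.1 hy]
      exact χ.2.2 u (Subgroup.mem_zpowers u) y
  have hrel : ∀ a b c d : S.G, M.q a b = M.q c d ↔ Rel S u a b c d := by
    intro a b c d
    constructor
    · intro h
      obtain ⟨x, h1, h2, h3⟩ := link hM h
      exact ⟨x, (hz _ _).1 (of_eq_r hM h1), (hz _ _).1 (of_eq_r hM h2), (hz _ _).1 h3⟩
    · rintro ⟨x, h1, h2, h3⟩
      have e1 : M.q a b = M.q a x := eq_r hM ((hz _ _).2 h1)
      have e2 : M.q c d = M.q c x := eq_r hM ((hz _ _).2 h2)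
      have e3 : M.q a x = M.q c x := eq_l hM ((hz _ _).2 h3)
      exact e1.trans (e3.trans e2.symm)
  have heq : ∀ a b c d : S.G, (quo S u).q a b = (quo S u).q c d ↔ M.q a b = M.q c d := by
    intro a b c d
    constructor
    · intro h
      exact (hrel _ _ _ _).2 (rel_of_quo hS h)
    · intro h
      show ({p | Rel S u a b p.1 p.2} : Set (S.G × S.G)) = {p | Rel S u c d p.1 p.2}
      ext p
      show Rel S u a b p.1 p.2 ↔ Rel S u c d p.1 p.2
      rw [← hrel, ← hrel, h]
  have heq0 : ∀ a b : S.G, (quo S u).q a b = (quo S u).zero ↔ M.q a b = M.zero := by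
    intro a b
    rw [quo_null hS, hz]
  refine ⟨⟨hS.exp2, fun a => (heq0 _ _).2 (hM.qs1 a), fun a b => (heq _ _ _ _).2 (hM.qs2 a b),
      fun a b c => ?_, fun a b c d h1 => ?_⟩, ?_⟩
  · exact (heq _ _ _ _).trans ((hM.qs3 _ _ _).trans (heq0 _ _).symm)
  · obtain ⟨x, h2, h3⟩ := hM.qs4 _ _ _ _ ((heq _ _ _ _).1 h1)
    exact ⟨x, (heq _ _ _ _).2 h2, (heq _ _ _ _).2 h3⟩
  · exact Elem.iso _ _ hME ⟨MulEquiv.refl S.G, rfl, fun a b c d => (heq a b c d).symm⟩

/-! ### iterated quotients -/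

theorem Iter.trans {S : QData} {u : S.G} {T : QData} (h : Iter (quo S u) T) : Iter S T := by
  induction h with
  | refl => exact Iter.step S u Iter.refl
  | step T v _ ih => exact Iter.step T v ih

theorem iter_of_elem {S : QData} (hS : IsQuat S) (hfin : Finite S.G) (hE : Elem S) {T : QData}
    (h : Iter S T) : IsQuat T ∧ Finite T.G ∧ Elem T := by
  induction h with
  | refl => exact ⟨hS, hfin, hE⟩
  | step T v _ ih =>
    obtain ⟨h1, h2, h3⟩ := ih
    obtain ⟨h4, h5⟩ := quo_of_elem h1 h2 h3 v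
    exact ⟨h4, h2, h5⟩

theorem elem_of_iter : ∀ (n : ℕ) (S : QData), Finite S.G → (∀ T, Iter S T → IsQuat T) →
    {a : S.G | ∃ y, S.q a y ≠ S.zero}.ncard ≤ n → Elem S := by
  intro n
  induction n using Nat.strong_induction_on with
  | _ n ih =>
    intro S hfin h hn
    have hS := h S Iter.refl
    refine elem_of_quo hS hfin fun u hu => ?_
    have hQ := h _ (Iter.step S u Iter.refl)
    refine ⟨hQ, ?_⟩
    have hlt : {a : (quo S u).G | ∃ y, (quo S u).q a y ≠ (quo S u).zero}.ncard <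
        {a : S.G | ∃ y, S.q a y ≠ S.zero}.ncard := by
      refine Set.ncard_lt_ncard (t := {a : S.G | ∃ y, S.q a y ≠ S.zero})
        ⟨fun a ha => ?_, fun hle => ?_⟩ (Set.toFinite _)
      · obtain ⟨y, hy⟩ := ha
        exact ⟨y, fun h0 => hy ((quo_null hS).2 (nu_of_zero hS h0))⟩
      · obtain ⟨y, hy⟩ := hle hu
        exact hy ((quo_null hS).2 ⟨y, rfl⟩)
    exact ih _ (lt_of_lt_of_le hlt hn) (quo S u) hfin (fun T hT => h T hT.trans) le_rfl

end Pool.Agent.Helper94.ETC
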